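import Mathlib.NumberTheory.LegendreSymbol.JacobiSymbol
import Mathlib.Data.Real.Basic
import Mathlib.Tactic

/-!
# Sums of Jacobi symbols over an interval
-/

set_option autoImplicit false

open Finset

namespace Pool.Agent.SQP

/-- The Jacobi symbol as a real number. -/
noncomputable def jr (n p : ℕ) : ℝ := (jacobiSym (n : ℤ) p : ℝ)

lemma jr_abs (n p : ℕ) : |jr n p| ≤ 1 := by
  unfold jr
  rcases jacobiSym.trichotomy (n : ℤ) p with h | h | h <;> rw [h] <;> norm_num

lemma jr_sq_le (n p : ℕ) : jr n p * jr n p ≤ 1 := by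
  have h := jr_abs n p
  rw [abs_le] at h
  nlinarith

lemma jr_mod (n p : ℕ) : jr (n % p) p = jr n p := by
  unfold jr
  rw [jacobiSym.mod_left (n : ℤ) p]
  push_cast
  rfl

lemma jr_zero {p : ℕ} (hp : 1 < p) : jr 0 p = 0 := by
  unfold jr
  have : jacobiSym ((0 : ℕ) : ℤ) p = 0 := by
    rw [Nat.cast_zero]
    exact jacobiSym.zero_left hp
  rw [this, Int.cast_zero]

lemma sum_ap_zero {p q : ℕ} (hp : p.Prime) (h2 : p ≠ 2) (hpq : ¬ p ∣ q) (b : ℕ) :
    ∑ j ∈ range p, jr (b + q * j) p = 0 := by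
  have : Fact p.Prime := ⟨hp⟩
  have hq : (q : ZMod p) ≠ 0 := by
    rwa [Ne, ZMod.natCast_eq_zero_iff]
  have h1 : ∀ j : ℕ, jr (b + q * j) p = (quadraticChar (ZMod p) ((b : ZMod p) + q * (j : ZMod p)) : ℝ) := by
    intro j
    unfold jr
    rw [← jacobiSym.legendreSym.to_jacobiSym, legendreSym]
    push_cast
    rfl
  have h3 : ∑ j ∈ range p, (quadraticChar (ZMod p) ((b : ZMod p) + q * (j : ZMod p)) : ℝ) =
      ∑ y : ZMod p, (quadraticChar (ZMod p) ((b : ZMod p) + q * y) : ℝ) := by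
    refine Finset.sum_bij (fun j _ => (j : ZMod p)) (fun _ _ => Finset.mem_univ _) ?_ ?_ ?_
    · intro a ha c hc hac
      have h5 := (ZMod.natCast_eq_natCast_iff' _ _ _).mp hac
      rwa [Nat.mod_eq_of_lt (Finset.mem_range.mp ha), Nat.mod_eq_of_lt (Finset.mem_range.mp hc)] at h5
    · intro y _
      exact ⟨y.val, Finset.mem_range.mpr (ZMod.val_lt y), ZMod.natCast_zmod_val y⟩
    · intro j _
      rfl
  have h4 : ∑ y : ZMod p, (quadraticChar (ZMod p) ((b : ZMod p) + q * y) : ℝ) =
      ∑ y : ZMod p, (quadraticChar (ZMod p) y : ℝ) :=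
    Equiv.sum_comp ((Equiv.mulLeft₀ (q : ZMod p) hq).trans (Equiv.addLeft (b : ZMod p)))
      (fun y => (quadraticChar (ZMod p) y : ℝ))
  rw [Finset.sum_congr rfl fun j _ => h1 j, h3, h4]
  have h5 := quadraticChar_sum_zero (F := ZMod p) ((ZMod.ringChar_zmod_n p).substr h2)
  exact_mod_cast h5

lemma sum_per (p : ℕ) (F : ℕ → ℝ) (hp : 0 < p) (hF : ∀ j, F (p + j) = F j) (h0 : ∑ j ∈ range p, F j = 0)
    (h1 : ∀ j, |F j| ≤ 1) (J : ℕ) : |∑ j ∈ range J, F j| ≤ p := by
  induction J using Nat.strong_induction_on with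
  | _ J ih =>
    rcases Nat.lt_or_ge J p with h | h
    · calc |∑ j ∈ range J, F j| ≤ ∑ j ∈ range J, |F j| := Finset.abs_sum_le_sum_abs _ _
        _ ≤ ∑ _j ∈ range J, (1 : ℝ) := Finset.sum_le_sum fun j _ => h1 j
        _ = J := by simp
        _ ≤ p := by exact_mod_cast h.le
    · obtain ⟨k, rfl⟩ := Nat.exists_eq_add_of_le h
      rw [Finset.sum_range_add, h0, zero_add, Finset.sum_congr rfl fun j _ => hF j]
      exact ih k (by omega)

lemma sum_two {p q : ℕ} (hp : p.Prime) (hp2 : p ≠ 2) (hq : q.Prime) (hpq : p ≠ q) (x : ℕ) :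
    |∑ n ∈ Icc 1 x, jr n p * jr n q| ≤ p * q := by
  have hq0 := hq.pos
  have h0 : ∑ n ∈ Icc 1 x, jr n p * jr n q = ∑ n ∈ range (x + 1), jr n p * jr n q := by
    rw [Finset.sum_range_succ', jr_zero hp.one_lt, zero_mul, add_zero, Finset.range_eq_Ico,
      Finset.sum_Ico_add' (fun n => jr n p * jr n q) 0 x 1]
    rfl
  have h1 : ∑ n ∈ range (x + 1), jr n p * jr n q =
      ∑ b ∈ range q, ∑ n ∈ (range (x + 1)).filter (fun n => n % q = b), jr n p * jr n q :=
    (Finset.sum_fiberwise_of_maps_to (fun n _ => Finset.mem_range.mpr (Nat.mod_lt n hq0)) _).symm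
  have h2 : ∀ b ∈ range q, ∑ n ∈ (range (x + 1)).filter (fun n => n % q = b), jr n p * jr n q =
      jr b q * ∑ j ∈ range ((x + q - b) / q), jr (b + q * j) p := by
    intro b hb
    have hb' := Finset.mem_range.mp hb
    rw [Finset.mul_sum]
    symm
    refine Finset.sum_bij (fun j _ => b + q * j) ?_ ?_ ?_ ?_
    · intro j hj
      have hj' := Finset.mem_range.mp hj
      rw [Nat.lt_div_iff_mul_lt hq0] at hj'
      rw [Finset.mem_filter, Finset.mem_range]
      refine ⟨?_, ?_⟩
      · have : q * j = j * q := mul_comm _ _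
        omega
      · rw [Nat.add_mul_mod_self_left, Nat.mod_eq_of_lt hb']
    · intro i _ j _ hij
      have : q * i = q * j := by omega
      exact Nat.eq_of_mul_eq_mul_left hq0 this
    · intro n hn
      obtain ⟨hn1, hn2⟩ := Finset.mem_filter.mp hn
      have hn1' := Finset.mem_range.mp hn1
      have hdm := Nat.mod_add_div n q
      refine ⟨n / q, ?_, by rw [← hn2]; exact hdm⟩
      rw [Finset.mem_range, Nat.lt_div_iff_mul_lt hq0]
      have : n / q * q = q * (n / q) := mul_comm _ _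
      omega
    · intro j _
      have h3 : jr (b + q * j) q = jr b q := by
        rw [← jr_mod (b + q * j) q, Nat.add_mul_mod_self_left, jr_mod]
      rw [h3]
      ring
  rw [h0, h1, Finset.sum_congr rfl h2]
  calc |∑ b ∈ range q, jr b q * ∑ j ∈ range ((x + q - b) / q), jr (b + q * j) p| ≤
      ∑ b ∈ range q, |jr b q * ∑ j ∈ range ((x + q - b) / q), jr (b + q * j) p| :=
        Finset.abs_sum_le_sum_abs _ _
    _ ≤ ∑ _b ∈ range q, (p : ℝ) := by
        refine Finset.sum_le_sum fun b _ => ?_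
        rw [abs_mul]
        have h3 : |∑ j ∈ range ((x + q - b) / q), jr (b + q * j) p| ≤ p :=
          sum_per p (fun j => jr (b + q * j) p) hp.pos (fun j => by
            rw [← jr_mod (b + q * (p + j)) p, ← jr_mod (b + q * j) p]
            congr 1
            rw [show b + q * (p + j) = b + q * j + p * q by ring, Nat.add_mul_mod_self_left])
            (sum_ap_zero hp hp2 (fun h => hpq ((Nat.prime_dvd_prime_iff_eq hp hq).mp h)) b)
            (fun j => jr_abs _ _) _
        calc |jr b q| * |∑ j ∈ range ((x + q - b) / q), jr (b + q * j) p| ≤ 1 * p :=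
              mul_le_mul (jr_abs _ _) h3 (abs_nonneg _) zero_le_one
          _ = p := one_mul _
    _ = p * q := by
        rw [Finset.sum_const, Finset.card_range, nsmul_eq_mul, mul_comm]

end Pool.Agent.SQP
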