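import Pool.Agent.Lib.VN.Final

/-!
# From universality to mean squares

`SS z c φ I n = ∑ i ∈ I, c i * (G0 (n + φ i) - G1 z (n + φ i))`. If the set of the shifts `φ i` is universal and
`|c i| ≤ 1` then the mean square of `SS` over `n ≤ x` is small (`mean_sq`), hence `|SS n| ≤ δ |I|` for almost all `n`
(`bad_card`).
-/

set_option autoImplicit false

open Finset Filter

namespace Pool.Agent.SQP

open Pool.Agent.HLB Pool.Agent.HL Pool.Agent.HLT Pool.Agent.HLU Pool.Agent.VK Pool.Agent.VN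

/-- The difference of primes and model, summed over the shifts. -/
noncomputable def SS (z : ℕ) (c : ℕ → ℂ) (φ : ℕ → ℕ) (I : Finset ℕ) (n : ℕ) : ℂ :=
  ∑ i ∈ I, c i * ((G0 (n + φ i) - G1 z (n + φ i) : ℝ) : ℂ)

lemma abs_G_le {x z : ℕ} (hL : 2 ≤ Real.log x) (hD : (DZ z)⁻¹ ≤ Real.log x) (n : ℕ) :
    |G0 n - G1 z n| ≤ Real.log x ^ 2 := by
  have h1 := G0_nonneg n
  have h2 := G0_le n
  have h3 := G1_nonneg z n
  have h4 := G1_le hL hD n
  rw [abs_le]
  constructor <;> nlinarith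

lemma norm_term_le {x z : ℕ} (hL : 2 ≤ Real.log x) (hD : (DZ z)⁻¹ ≤ Real.log x) {a : ℂ} (ha : ‖a‖ ≤ 1) (n : ℕ) :
    ‖a * ((G0 n - G1 z n : ℝ) : ℂ)‖ ≤ Real.log x ^ 2 := by
  rw [norm_mul, Complex.norm_real, Real.norm_eq_abs]
  calc ‖a‖ * |G0 n - G1 z n| ≤ 1 * Real.log x ^ 2 :=
        mul_le_mul ha (abs_G_le hL hD n) (abs_nonneg _) zero_le_one
    _ = Real.log x ^ 2 := one_mul _

lemma norm_SS_le {x z : ℕ} (hL : 2 ≤ Real.log x) (hD : (DZ z)⁻¹ ≤ Real.log x) (c : ℕ → ℂ) (hc : ∀ i, ‖c i‖ ≤ 1)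
    (φ : ℕ → ℕ) (I : Finset ℕ) (n : ℕ) : ‖SS z c φ I n‖ ≤ I.card * Real.log x ^ 2 := by
  unfold SS
  refine (norm_sum_le _ _).trans ((Finset.sum_le_sum fun i _ => norm_term_le hL hD (hc i) _).trans ?_)
  rw [Finset.sum_const, nsmul_eq_mul]

theorem mean_sq (A : ℕ) {B x : ℕ} (hL : 2 ≤ Real.log x) (hD : (DZ (zA B x))⁻¹ ≤ Real.log x) (c : ℕ → ℂ)
    (hc : ∀ i, ‖c i‖ ≤ 1) (φ : ℕ → ℕ) (I : Finset ℕ) (hφ : Set.InjOn φ (I : Set ℕ))
    (h : UB 1 2 (A + 5) B x (fun _ => I.image φ)) :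
    ∑ n ∈ Icc 1 x, ‖SS (zA B x) c φ I n‖ ^ 2 ≤ (I.card : ℝ) ^ 2 * (x / Real.log x ^ A) := by
  classical
  have hL0 : 0 < Real.log x := by linarith
  have hx0 : (0 : ℝ) ≤ x := Nat.cast_nonneg x
  rcases Nat.eq_zero_or_pos I.card with h0 | h0
  · rw [Finset.card_eq_zero] at h0
    subst h0
    simp [SS]
  have hT0 : (0 : ℝ) < I.card := by exact_mod_cast h0
  set z := zA B x with hz
  set L := Real.log x with hLdef
  set w : ℕ → ℂ := fun n => (starRingEnd ℂ) (SS z c φ I n) / (I.card : ℂ) with hw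
  have hwn : ∀ n, ‖w n‖ ≤ L ^ 2 := by
    intro n
    rw [hw]
    simp only
    rw [norm_div, RCLike.norm_conj, Complex.norm_natCast, div_le_iff₀ hT0, mul_comm]
    exact norm_SS_le hL hD c hc φ I n
  have hIc : (I.image φ).card = I.card := Finset.card_image_of_injOn hφ
  obtain ⟨E, hE1, hE2, hE3⟩ := h w (fun n _ => hwn n) 0 (Nat.zero_le _)
  rw [Fin.prod_univ_one, hIc] at hE2
  set W : ℕ → ℂ := fun i => ∑ n ∈ Icc 1 x, w n * ((G0 (n + φ i) - G1 z (n + φ i) : ℝ) : ℂ) with hW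
  have hW1 : ∀ i ∈ I, (fun _ : Fin 1 => φ i) ∉ E → ‖W i‖ ≤ x / L ^ (A + 5) := by
    intro i hi htE
    have h1 := (hE3 (fun _ => φ i) (Fintype.mem_piFinset.mpr fun _ => Finset.mem_image_of_mem φ hi) htE).1 x le_rfl
    simp only [Fin.prod_univ_one] at h1
    exact h1
  have hW2 : ∀ i, ‖W i‖ ≤ x * L ^ 4 := by
    intro i
    rw [hW]
    refine (norm_sum_le _ _).trans ?_
    calc ∑ n ∈ Icc 1 x, ‖w n * ((G0 (n + φ i) - G1 z (n + φ i) : ℝ) : ℂ)‖ ≤ ∑ _n ∈ Icc 1 x, L ^ 4 := by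
          refine Finset.sum_le_sum fun n _ => ?_
          rw [norm_mul, Complex.norm_real, Real.norm_eq_abs]
          calc ‖w n‖ * |G0 (n + φ i) - G1 z (n + φ i)| ≤ L ^ 2 * L ^ 2 :=
                mul_le_mul (hwn n) (abs_G_le hL hD _) (abs_nonneg _) (by positivity)
            _ = L ^ 4 := by ring
      _ = x * L ^ 4 := by rw [Finset.sum_const, Nat.card_Icc, nsmul_eq_mul, Nat.add_sub_cancel]
  have hsum : ((∑ n ∈ Icc 1 x, ‖SS z c φ I n‖ ^ 2 : ℝ) : ℂ) = I.card * ∑ i ∈ I, c i * W i := by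
    have hIne : ((I.card : ℕ) : ℂ) ≠ 0 := by
      rw [Ne, Nat.cast_eq_zero]
      omega
    have h1 : ∑ i ∈ I, c i * W i = ∑ n ∈ Icc 1 x, w n * SS z c φ I n := by
      rw [hW]
      simp only [Finset.mul_sum]
      rw [Finset.sum_comm]
      refine Finset.sum_congr rfl fun n _ => ?_
      unfold SS
      rw [Finset.mul_sum]
      refine Finset.sum_congr rfl fun i _ => ?_
      ring
    rw [h1, Finset.mul_sum, Complex.ofReal_sum]
    refine Finset.sum_congr rfl fun n _ => ?_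
    rw [hw]
    simp only
    rw [div_mul_eq_mul_div, mul_div_cancel₀ _ hIne, ← Complex.normSq_eq_conj_mul_self, Complex.normSq_eq_norm_sq]
  set E' : Finset ℕ := I.filter (fun i => (fun _ : Fin 1 => φ i) ∈ E) with hE'
  have hE'c : (E'.card : ℝ) ≤ I.card / L ^ (A + 5) := by
    refine le_trans ?_ hE2
    have : E'.card ≤ E.card := Finset.card_le_card_of_injOn (fun i => fun _ : Fin 1 => φ i)
      (fun i hi => (Finset.mem_filter.mp (Finset.mem_coe.mp hi)).2) (fun a ha b hb hab =>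
        hφ (Finset.mem_coe.mpr (Finset.mem_filter.mp (Finset.mem_coe.mp ha)).1)
          (Finset.mem_coe.mpr (Finset.mem_filter.mp (Finset.mem_coe.mp hb)).1) (congrFun hab 0))
    exact_mod_cast this
  have hsplit : ∑ i ∈ I, ‖W i‖ ≤ I.card * (x / L ^ (A + 5)) + E'.card * (x * L ^ 4) := by
    calc ∑ i ∈ I, ‖W i‖ ≤ ∑ i ∈ I, (x / L ^ (A + 5) + if i ∈ E' then x * L ^ 4 else 0) := by
          refine Finset.sum_le_sum fun i hi => ?_
          by_cases htE : i ∈ E'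
          · rw [if_pos htE]
            have := hW2 i
            have h2 : 0 ≤ (x : ℝ) / L ^ (A + 5) := by positivity
            linarith
          · rw [if_neg htE, add_zero]
            exact hW1 i hi fun h => htE (Finset.mem_filter.mpr ⟨hi, h⟩)
      _ = I.card * (x / L ^ (A + 5)) + E'.card * (x * L ^ 4) := by
          have hEE : I.filter (fun t => t ∈ E') = E' := by
            ext t
            rw [Finset.mem_filter, hE', Finset.mem_filter]
            tauto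
          rw [Finset.sum_add_distrib, Finset.sum_const, nsmul_eq_mul, ← Finset.sum_filter, Finset.sum_const,
            nsmul_eq_mul, hEE]
  have hfin : (I.card : ℝ) * (x / L ^ (A + 5)) + E'.card * (x * L ^ 4) ≤ I.card * (x / L ^ A) := by
    have h1 : (E'.card : ℝ) * (x * L ^ 4) ≤ I.card / L ^ (A + 5) * (x * L ^ 4) :=
      mul_le_mul_of_nonneg_right hE'c (by positivity)
    have h2 : (I.card : ℝ) * (x / L ^ (A + 5)) + I.card / L ^ (A + 5) * (x * L ^ 4) =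
        (I.card * (x / L ^ A)) * ((1 + L ^ 4) / L ^ 5) := by
      rw [pow_add]
      field_simp
    have h3 : (1 + L ^ 4) / L ^ 5 ≤ 1 := by
      rw [div_le_one (by positivity)]
      have h4 : 1 ≤ L ^ 4 := one_le_pow₀ (by linarith)
      nlinarith
    have h4 : 0 ≤ (I.card : ℝ) * (x / L ^ A) := by positivity
    nlinarith
  have hnorm : ∑ n ∈ Icc 1 x, ‖SS z c φ I n‖ ^ 2 ≤ I.card * ∑ i ∈ I, ‖W i‖ := by
    have h1 : ∑ n ∈ Icc 1 x, ‖SS z c φ I n‖ ^ 2 = ‖((∑ n ∈ Icc 1 x, ‖SS z c φ I n‖ ^ 2 : ℝ) : ℂ)‖ := by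
      rw [Complex.norm_real, Real.norm_of_nonneg (Finset.sum_nonneg fun n _ => by positivity)]
    rw [h1, hsum, norm_mul, Complex.norm_natCast]
    refine mul_le_mul_of_nonneg_left ((norm_sum_le _ _).trans (Finset.sum_le_sum fun i _ => ?_)) hT0.le
    rw [norm_mul]
    calc ‖c i‖ * ‖W i‖ ≤ 1 * ‖W i‖ := mul_le_mul_of_nonneg_right (hc i) (norm_nonneg _)
      _ = ‖W i‖ := one_mul _
  calc ∑ n ∈ Icc 1 x, ‖SS z c φ I n‖ ^ 2 ≤ I.card * ∑ i ∈ I, ‖W i‖ := hnorm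
    _ ≤ I.card * (I.card * (x / L ^ A)) := mul_le_mul_of_nonneg_left (hsplit.trans hfin) hT0.le
    _ = (I.card : ℝ) ^ 2 * (x / L ^ A) := by ring

/-- For almost all `n` the sum over the shifts is small. -/
theorem bad_card (A C : ℕ) {B x : ℕ} (hL : 2 ≤ Real.log x) (hD : (DZ (zA B x))⁻¹ ≤ Real.log x) (c : ℕ → ℂ)
    (hc : ∀ i, ‖c i‖ ≤ 1) (φ : ℕ → ℕ) (I : Finset ℕ) (hφ : Set.InjOn φ (I : Set ℕ))
    (h : UB 1 2 (A + 2 * C + 5) B x (fun _ => I.image φ)) :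
    (((Icc 1 x).filter (fun n => (I.card : ℝ) / Real.log x ^ C < ‖SS (zA B x) c φ I n‖)).card : ℝ) ≤
      x / Real.log x ^ A := by
  classical
  have hL0 : 0 < Real.log x := by linarith
  have hx0 : (0 : ℝ) ≤ x := Nat.cast_nonneg x
  rcases Nat.eq_zero_or_pos I.card with h0 | h0
  · rw [Finset.card_eq_zero] at h0
    subst h0
    simp only [SS, Finset.card_empty, Nat.cast_zero, zero_div, Finset.sum_empty, norm_zero, lt_self_iff_false,
      Finset.filter_false, Finset.card_empty]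
    positivity
  have hT0 : (0 : ℝ) < I.card := by exact_mod_cast h0
  have h1 := mean_sq (A + 2 * C) hL hD c hc φ I hφ h
  set L := Real.log x with hLdef
  set D := (Icc 1 x).filter (fun n => (I.card : ℝ) / L ^ C < ‖SS (zA B x) c φ I n‖) with hDdef
  have h2 : (D.card : ℝ) * ((I.card : ℝ) / L ^ C) ^ 2 ≤ ∑ n ∈ Icc 1 x, ‖SS (zA B x) c φ I n‖ ^ 2 := by
    calc (D.card : ℝ) * ((I.card : ℝ) / L ^ C) ^ 2 = ∑ _n ∈ D, ((I.card : ℝ) / L ^ C) ^ 2 := by
          rw [Finset.sum_const, nsmul_eq_mul]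
      _ ≤ ∑ n ∈ D, ‖SS (zA B x) c φ I n‖ ^ 2 :=
          Finset.sum_le_sum fun n hn => pow_le_pow_left₀ (by positivity) (Finset.mem_filter.mp hn).2.le 2
      _ ≤ ∑ n ∈ Icc 1 x, ‖SS (zA B x) c φ I n‖ ^ 2 :=
          Finset.sum_le_sum_of_subset_of_nonneg (Finset.filter_subset _ _) fun n _ _ => sq_nonneg _
  have h3 : (D.card : ℝ) * ((I.card : ℝ) / L ^ C) ^ 2 ≤ x / L ^ A * ((I.card : ℝ) / L ^ C) ^ 2 := by
    refine h2.trans (h1.trans (le_of_eq ?_))
    rw [div_pow, ← pow_mul, pow_add, mul_comm C 2]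
    field_simp
  exact le_of_mul_le_mul_right h3 (by positivity)

end Pool.Agent.SQP
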