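import Pool.Agent.Lib.VN.Final
import Pool.Agent.Lib.VK.PolySub
import Pool.Agent.Lib.VM.WinSup6

/-!
# The set `{M² - m² : m ∈ S}` is universal at `x` if `S ⊆ [0, M]` is dense and `M ≥ x^(1/12 + ε)`
-/

set_option autoImplicit false

open Finset Filter

namespace Pool.Agent.SQP

open Pool.Agent.HLB Pool.Agent.HL Pool.Agent.HLT Pool.Agent.HLU Pool.Agent.VK Pool.Agent.VN

/-- The input on short windows. -/
theorem wne_sixth : WNE (1 / 6) := by
  intro κ hκ A0 B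
  obtain ⟨A, hA, h⟩ := VM.win_sup6 A0 B (κ - 1 / 6) (by linarith)
  refine ⟨A, hA, ?_⟩
  filter_upwards [h] with x hx H h1 h2 k0
  exact hx H k0 (by rw [add_sub_cancel]; exact h1) h2

/-- The reflected squares. -/
def rsq (M : ℕ) (S : Finset ℕ) : Finset ℕ := S.image (fun m => M ^ 2 - m ^ 2)

lemma rsq_inj {M : ℕ} {S : Finset ℕ} (hS : S ⊆ range (M + 1)) :
    Set.InjOn (fun m => M ^ 2 - m ^ 2) (S : Set ℕ) := by
  intro a ha b hb hab
  have h1 := Finset.mem_range.mp (hS (Finset.mem_coe.mp ha))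
  have h2 := Finset.mem_range.mp (hS (Finset.mem_coe.mp hb))
  have h3 : a ^ 2 ≤ M ^ 2 := Nat.pow_le_pow_left (by omega) 2
  have h4 : b ^ 2 ≤ M ^ 2 := Nat.pow_le_pow_left (by omega) 2
  simp only at hab
  have h5 : a ^ 2 = b ^ 2 := by omega
  exact Nat.pow_left_injective (by norm_num) h5

lemma rsq_card {M : ℕ} {S : Finset ℕ} (hS : S ⊆ range (M + 1)) : (rsq M S).card = S.card :=
  Finset.card_image_of_injOn (rsq_inj hS)

lemma rsq_sub {M : ℕ} {S : Finset ℕ} : rsq M S ⊆ range (M ^ 2 + 1) := by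
  intro u hu
  obtain ⟨m, _, rfl⟩ := Finset.mem_image.mp hu
  rw [Finset.mem_range]
  omega

lemma sum_rsq {M : ℕ} {S : Finset ℕ} (hS : S ⊆ range (M + 1)) (f : ℕ → ℝ) :
    ∑ t ∈ rsq M S, f t = ∑ m ∈ S, f (M ^ 2 - m ^ 2) := by
  unfold rsq
  rw [Finset.sum_image (rsq_inj hS)]

lemma norm_WW_rsq {M : ℕ} {S : Finset ℕ} (hS : S ⊆ range (M + 1)) (θ : ℝ) :
    ‖WW (rsq M S) θ‖ = ‖WW (S.image (fun m => m ^ 2)) θ‖ := by
  have h1 : WW (rsq M S) θ = ex ((M ^ 2 : ℕ) * θ) * (starRingEnd ℂ) (WW (S.image (fun m => m ^ 2)) θ) := by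
    unfold HLT.WW rsq
    rw [Finset.sum_image (rsq_inj hS), Finset.sum_image (fun a _ b _ hab => Nat.pow_left_injective (by norm_num) hab),
      map_sum, Finset.mul_sum]
    refine Finset.sum_congr rfl fun m hm => ?_
    have h2 := Finset.mem_range.mp (hS hm)
    have h3 : m ^ 2 ≤ M ^ 2 := Nat.pow_le_pow_left (by omega) 2
    rw [← ex_neg, ← ex_add, Nat.cast_sub h3]
    congr 1
    ring
  rw [h1, norm_mul, norm_ex, one_mul, RCLike.norm_conj]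

/-- The spectrum of dense sets of squares, reflected. -/
theorem spb_rsq (C : ℕ) : ∃ F : ℕ → ℕ, ∀ b0 : ℕ, ∃ M0 : ℕ, ∀ M : ℕ, M0 ≤ M → ∀ S ⊆ range (M + 1),
    ((M : ℝ) + 1 ≤ S.card * Real.log ((M ^ 2 : ℕ) : ℝ) ^ C) → SpB F b0 (M ^ 2) (rsq M S) := by
  set Q : Polynomial ℤ := (Polynomial.X - 1) ^ 2 with hQ
  have hQd : Q.natDegree = 2 := by
    rw [hQ, Polynomial.natDegree_pow]
    have : (Polynomial.X - 1 : Polynomial ℤ).natDegree = 1 := by
      have := Polynomial.natDegree_X_sub_C (1 : ℤ)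
      simpa using this
    rw [this]
  obtain ⟨F, hF⟩ := poly_sub Q (by rw [hQd]) C
  refine ⟨F, fun b0 => ?_⟩
  obtain ⟨H0, hH0⟩ := eventually_atTop.mp (hF b0)
  refine ⟨max H0 3, fun M hM S hS hc => ?_⟩
  have hM3 : 3 ≤ M := le_trans (le_max_right _ _) hM
  have hMH : H0 ≤ M ^ 2 := (le_trans (le_max_left _ _) hM).trans (Nat.le_self_pow (by norm_num) M)
  have hev : ∀ k : ℕ, 1 ≤ k → Q.eval (k : ℤ) = (((k - 1) ^ 2 : ℕ) : ℤ) := by
    intro k hk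
    rw [hQ]
    simp only [Polynomial.eval_pow, Polynomial.eval_sub, Polynomial.eval_X, Polynomial.eval_one]
    push_cast [Nat.cast_sub hk]
    ring
  have hM2 : (1 : ℝ) ≤ Real.log ((M ^ 2 : ℕ) : ℝ) := by
    rw [Real.le_log_iff_exp_le (by positivity)]
    have h3 : (3 : ℝ) ≤ M := by exact_mod_cast hM3
    push_cast
    nlinarith [Real.exp_one_lt_d9]
  have hT : (S.image (fun m => m ^ 2)).card = S.card :=
    Finset.card_image_of_injOn (fun a _ b _ hab => Nat.pow_left_injective (by norm_num) hab)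
  have h1 := (hH0 (M ^ 2) hMH (M + 1) (fun k hk => by
      have hk' := Finset.mem_Icc.mp hk
      rw [hev k hk'.1]
      refine ⟨by positivity, ?_⟩
      have h2 : (k - 1) ^ 2 ≤ M ^ 2 := Nat.pow_le_pow_left (by omega) 2
      exact_mod_cast h2) (by
      rw [hQd]
      calc ((M ^ 2 : ℕ) : ℝ) ≤ ((M + 1 : ℕ) : ℝ) ^ 2 * 1 := by
            push_cast
            have : (0 : ℝ) ≤ M := Nat.cast_nonneg M
            nlinarith
        _ ≤ _ := mul_le_mul_of_nonneg_left (one_le_pow₀ hM2) (by positivity))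
    (S.image (fun m => m ^ 2)) (fun u hu => by
      obtain ⟨m, hm, rfl⟩ := Finset.mem_image.mp hu
      have h2 := Finset.mem_range.mp (hS hm)
      refine Finset.mem_image.mpr ⟨m + 1, Finset.mem_Icc.mpr ⟨by omega, by omega⟩, ?_⟩
      rw [hev (m + 1) (by omega), Nat.add_sub_cancel, Int.toNat_natCast]) (by
      rw [hT, Nat.cast_add, Nat.cast_one]
      exact hc)).2
  intro b hb Θ hΘ hθ
  refine h1 b hb Θ hΘ fun θ hθ' => ?_
  have h2 := hθ θ hθ'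
  rw [norm_WW_rsq hS, rsq_card hS] at h2
  rwa [hT]

/-- `fin_a` with a lower bound for the range of the sieve. -/
theorem fin_a0 (κ0 κ : ℝ) (h6 : 1 / 6 ≤ κ0) (hW : WNE κ0) (hκ : κ0 < κ) (m K A B0 : ℕ) (F : ℕ → ℕ) :
    ∃ b0 B : ℕ, B0 ≤ B ∧ ∀ᶠ x : ℕ in atTop, ∀ H : Fin m → ℕ, (∀ i, (x : ℝ) ^ κ ≤ H i ∧ H i ≤ x) →
    ∀ T : Fin m → Finset ℕ, (∀ i, T i ⊆ range (x + 1)) → (∀ i, SpB F b0 (H i) (T i)) →
    UB m K A B x T := by
  obtain ⟨K', B', A0, h1⟩ := univ_ms m K A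
  obtain ⟨b0, B, hB, h2⟩ := msp_ex κ0 κ hW hκ K' B' (max A0 B0) (fun b => F (b + 1))
  refine ⟨b0 + 1, B, (le_max_right _ _).trans hB, ?_⟩
  filter_upwards [h1 B ((le_max_left _ _).trans hB), h2, spb_ev κ0 κ h6 hκ F b0] with x h1 h2 h3 H hH T hT hsp
  refine h1 T fun i => ?_
  obtain ⟨h4, h5⟩ := h3 (H i) (hH i).1 (hH i).2
  exact h2 (H i) h4 (hH i).1 (hH i).2 (T i) (hT i) (h5 (T i) (hsp i))

/-- Universality of dense sets of reflected squares. -/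
theorem ub_rsq (κ : ℝ) (hκ : 1 / 6 < κ) (K A C B0 : ℕ) : ∃ B : ℕ, B0 ≤ B ∧ ∀ᶠ x : ℕ in atTop, ∀ M : ℕ,
    (x : ℝ) ^ κ ≤ ((M ^ 2 : ℕ) : ℝ) → M ^ 2 ≤ x → ∀ S ⊆ range (M + 1),
      ((M : ℝ) + 1 ≤ S.card * Real.log x ^ C) → UB 1 K A B x (fun _ => rsq M S) := by
  obtain ⟨F, hF⟩ := spb_rsq (C + 1)
  obtain ⟨b0, B, hB, h⟩ := fin_a0 (1 / 6) κ le_rfl wne_sixth hκ 1 K A B0 F
  obtain ⟨M0, hM0⟩ := hF b0
  refine ⟨B, hB, ?_⟩
  have e1 : ∀ᶠ x : ℕ in atTop, ((M0 ^ 2 : ℕ) : ℝ) < (x : ℝ) ^ κ :=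
    ((tendsto_rpow_atTop (by linarith : 0 < κ)).comp tendsto_natCast_atTop_atTop).eventually
      (eventually_gt_atTop _)
  filter_upwards [h, e1, ev_log ((6 : ℝ) ^ (C + 1)), eventually_ge_atTop 1] with x h h1 h2 hx1 M hM1 hM2 S hS hc
  refine h (fun _ => M ^ 2) (fun _ => ⟨hM1, hM2⟩) _ (fun _ => rsq_sub.trans (Finset.range_mono (by omega)))
    (fun _ => hM0 M ?_ S hS ?_)
  · have h3 : ((M0 ^ 2 : ℕ) : ℝ) < ((M ^ 2 : ℕ) : ℝ) := h1.trans_le hM1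
    have h4 : M0 ^ 2 < M ^ 2 := by exact_mod_cast h3
    exact (Nat.pow_lt_pow_iff_left (by norm_num)).mp h4 |>.le
  · have hx0 : (0 : ℝ) < x := by exact_mod_cast hx1
    have hL1 : (1 : ℝ) ≤ Real.log x := by
      refine le_trans ?_ h2
      exact one_le_pow₀ (by norm_num)
    have h5 : Real.log x / 6 ≤ Real.log ((M ^ 2 : ℕ) : ℝ) := by
      have h6 : Real.log ((x : ℝ) ^ κ) ≤ Real.log ((M ^ 2 : ℕ) : ℝ) :=
        Real.log_le_log (Real.rpow_pos_of_pos hx0 _) hM1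
      rw [Real.log_rpow hx0] at h6
      nlinarith
    refine hc.trans (mul_le_mul_of_nonneg_left ?_ (Nat.cast_nonneg _))
    calc Real.log x ^ C = Real.log x ^ C * 1 := (mul_one _).symm
      _ ≤ Real.log x ^ C * (Real.log x / 6 ^ (C + 1)) := by
          refine mul_le_mul_of_nonneg_left ?_ (by positivity)
          rw [le_div_iff₀ (by positivity), one_mul]
          exact h2
      _ = (Real.log x / 6) ^ (C + 1) := by
          rw [div_pow, pow_succ]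
          ring
      _ ≤ _ := pow_le_pow_left₀ (by positivity) h5 _

end Pool.Agent.SQP
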