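import Pool.Agent.Lib.SQP.Grid
import Pool.Agent.Lib.SQP.Mean
import Pool.Agent.Lib.SQP.Spec

/-!
# Primes `n - m²`, weighted by `c m`, for almost all `n`
-/

set_option autoImplicit false

open Finset Filter

namespace Pool.Agent.SQP

open Pool.Agent.HLB Pool.Agent.HL Pool.Agent.HLT Pool.Agent.HLU Pool.Agent.VK Pool.Agent.VN

lemma log_two_le {x : ℕ} (hx : 1 ≤ x) : (Nat.log 2 x : ℝ) ≤ 2 * Real.log x := by
  have h1 : 2 ^ Nat.log 2 x ≤ x := Nat.pow_log_le_self 2 (by omega)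
  have h2 : Real.log ((2 : ℝ) ^ Nat.log 2 x) ≤ Real.log x :=
    Real.log_le_log (by positivity) (by exact_mod_cast h1)
  rw [Real.log_pow] at h2
  have h3 := Real.log_two_gt_d9
  have h4 : (0 : ℝ) ≤ Nat.log 2 x := Nat.cast_nonneg _
  nlinarith

/-- The exceptional set. -/
lemma exc_card (A x U C : ℕ) (hL : 9 ≤ Real.log x) (hx1 : 1 ≤ x)
    (hU2 : (U : ℝ) ≤ 2 * Real.log x ^ (A + 4)) (cond : ℕ → Prop) (f : ℕ → ℕ → ℝ)
    (hbad : ∀ M : ℕ, cond M → (((Icc 1 x).filter (fun n => ((M + 1 : ℕ) : ℝ) / Real.log x ^ C < f M n)).card : ℝ) ≤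
      x / Real.log x ^ (2 * A + 6)) :
    ∃ E ⊆ Icc 1 x, (E.card : ℝ) ≤ x / Real.log x ^ A ∧ ∀ n ∈ Icc 1 x, n ∉ E → ∀ M ∈ gr U x, cond M → M ^ 2 < n →
      f M (n - M ^ 2) ≤ ((M + 1 : ℕ) : ℝ) / Real.log x ^ C := by
  classical
  set L := Real.log x with hLdef
  have hL0 : 0 < L := by linarith
  have hx0 : (0 : ℝ) ≤ x := Nat.cast_nonneg x
  set bad : ℕ → Finset ℕ := fun M => (Icc 1 x).filter (fun n => ((M + 1 : ℕ) : ℝ) / L ^ C < f M n) with hbd
  set E : Finset ℕ := (Icc 1 x).filter (fun n => ∃ M ∈ gr U x, cond M ∧ M ^ 2 < n ∧ n - M ^ 2 ∈ bad M) with hE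
  refine ⟨E, Finset.filter_subset _ _, ?_, fun n hn hnE M hM hcond hMn => ?_⟩
  · have h1 : E ⊆ ((gr U x).filter cond).biUnion (fun M => (bad M).image (fun k => k + M ^ 2)) := by
      intro n hn
      obtain ⟨_, M, hM, hc, hMn, hb⟩ := Finset.mem_filter.mp hn
      rw [Finset.mem_biUnion]
      refine ⟨M, Finset.mem_filter.mpr ⟨hM, hc⟩, Finset.mem_image.mpr ⟨n - M ^ 2, hb, ?_⟩⟩
      omega
    have h2 : (E.card : ℝ) ≤ ∑ M ∈ (gr U x).filter cond, ((bad M).card : ℝ) := by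
      have h3 := (Finset.card_le_card h1).trans Finset.card_biUnion_le
      have h4 : E.card ≤ ∑ M ∈ (gr U x).filter cond, (bad M).card :=
        h3.trans (Finset.sum_le_sum fun M _ => Finset.card_image_le)
      exact_mod_cast h4
    have h5 : (((gr U x).filter cond).card : ℝ) ≤ L ^ (A + 6) := by
      have h6 : ((gr U x).filter cond).card ≤ (U + 1) * (Nat.log 2 x + 1) :=
        (Finset.card_le_card (Finset.filter_subset _ _)).trans (gr_card U x)
      have h7 : (((gr U x).filter cond).card : ℝ) ≤ (U + 1) * (Nat.log 2 x + 1) := by exact_mod_cast h6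
      have h8 := log_two_le hx1
      have h9 : (1 : ℝ) ≤ L ^ (A + 4) := one_le_pow₀ (by linarith)
      have h10 : (U : ℝ) + 1 ≤ 3 * L ^ (A + 4) := by linarith
      have h11 : (Nat.log 2 x : ℝ) + 1 ≤ 3 * L := by linarith
      calc (((gr U x).filter cond).card : ℝ) ≤ (U + 1) * (Nat.log 2 x + 1) := h7
        _ ≤ (3 * L ^ (A + 4)) * (3 * L) := mul_le_mul h10 h11 (by positivity) (by positivity)
        _ = 9 * L ^ (A + 5) := by ring
        _ ≤ L * L ^ (A + 5) := mul_le_mul_of_nonneg_right hL (by positivity)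
        _ = L ^ (A + 6) := by ring
    calc (E.card : ℝ) ≤ ∑ M ∈ (gr U x).filter cond, ((bad M).card : ℝ) := h2
      _ ≤ ∑ _M ∈ (gr U x).filter cond, x / L ^ (2 * A + 6) :=
          Finset.sum_le_sum fun M hM => hbad M (Finset.mem_filter.mp hM).2
      _ = ((gr U x).filter cond).card * (x / L ^ (2 * A + 6)) := by rw [Finset.sum_const, nsmul_eq_mul]
      _ ≤ L ^ (A + 6) * (x / L ^ (2 * A + 6)) := mul_le_mul_of_nonneg_right h5 (by positivity)
      _ = x / L ^ A := by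
          rw [show 2 * A + 6 = (A + 6) + A by ring, pow_add L (A + 6) A]
          field_simp
  · by_contra hcon
    rw [not_le] at hcon
    apply hnE
    rw [hE, Finset.mem_filter]
    have hnx := Finset.mem_Icc.mp hn
    refine ⟨hn, M, hM, hcond, hMn, ?_⟩
    rw [hbd]
    simp only [Finset.mem_filter, Finset.mem_Icc]
    exact ⟨⟨by omega, by omega⟩, hcon⟩

theorem core (ε : ℝ) (hε : 0 < ε) (A B0 : ℕ) : ∃ B : ℕ, B0 ≤ B ∧ ∀ᶠ x : ℕ in atTop, ∀ c : ℕ → ℂ,
    (∀ m, ‖c m‖ ≤ 1) → ∃ E ⊆ Icc 1 x, (E.card : ℝ) ≤ x / Real.log x ^ A ∧ ∀ n ∈ Icc 1 x, n ∉ E → ∀ M : ℕ,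
      (x : ℝ) ^ (1 / 12 + ε) ≤ M → M ^ 2 < n →
      ‖∑ m ∈ range (M + 1), c m * ((G0 (n - m ^ 2) - G1 (zA B x) (n - m ^ 2) : ℝ) : ℂ)‖ ≤
        M / Real.log x ^ A := by
  classical
  obtain ⟨B, hB, h⟩ := ub_rsq (1 / 6 + ε) (by linarith) 2 (4 * A + 15) 0 B0
  refine ⟨B, hB, ?_⟩
  have e1 : ∀ᶠ x : ℕ in atTop, (4 : ℝ) ≤ (x : ℝ) ^ ε :=
    ((tendsto_rpow_atTop hε).comp tendsto_natCast_atTop_atTop).eventually (eventually_ge_atTop _)
  have e2 : ∀ᶠ x : ℕ in atTop, Real.log x ^ (A + 5) ≤ (x : ℝ) ^ (1 / 12 + ε) := by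
    have h1 : (fun x : ℝ => Real.log x ^ (A + 5)) =o[atTop] (fun x : ℝ => x ^ (1 / 12 + ε)) := by
      have h := isLittleO_log_rpow_rpow_atTop ((A + 5 : ℕ) : ℝ) (show (0:ℝ) < 1 / 12 + ε by linarith)
      simp only [Real.rpow_natCast] at h
      exact h
    have h2 := (h1.comp_tendsto tendsto_natCast_atTop_atTop).bound (show (0:ℝ) < 1 by norm_num)
    filter_upwards [h2, ev_log 1] with x hx hL
    simp only [Function.comp_def, one_mul] at hx
    rwa [Real.norm_of_nonneg (by positivity), Real.norm_of_nonneg (by positivity)] at hx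
  filter_upwards [h, e1, e2, ev_log 9, DZ_inv_le B, eventually_ge_atTop 1] with x h e1 e2 hL hD hx1 c hc
  set L := Real.log x with hLdef
  have hL0 : 0 < L := by linarith
  have hL2 : 2 ≤ L := by linarith
  have hx0 : (0 : ℝ) < x := by exact_mod_cast hx1
  set U := ⌈L ^ (A + 4)⌉₊ with hU
  have hp1 : (1 : ℝ) ≤ L ^ (A + 4) := one_le_pow₀ (by linarith)
  have hU1 : L ^ (A + 4) ≤ U := Nat.le_ceil _
  have hU2 : (U : ℝ) ≤ 2 * L ^ (A + 4) := by
    have := (Nat.ceil_lt_add_one (by positivity : (0 : ℝ) ≤ L ^ (A + 4))).le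
    linarith
  have hU0 : 1 ≤ U := by
    have : (1 : ℝ) ≤ U := hp1.trans hU1
    exact_mod_cast this
  set cond : ℕ → Prop := fun M => (x : ℝ) ^ (1 / 6 + ε) ≤ ((M ^ 2 : ℕ) : ℝ) ∧ M ^ 2 ≤ x with hcond
  obtain ⟨E, hE1, hE2, hE3⟩ := exc_card A x U (A + 2) hL hx1 hU2 cond
    (fun M n => ‖SS (zA B x) c (fun m => M ^ 2 - m ^ 2) (range (M + 1)) n‖) (fun M hM => by
      have h1 := h M hM.1 hM.2 (range (M + 1)) (Finset.Subset.refl _) (by
        rw [Finset.card_range, pow_zero, mul_one]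
        push_cast
        exact le_rfl)
      have h3 := bad_card (2 * A + 6) (A + 2) hL2 hD c hc (fun m => M ^ 2 - m ^ 2) (range (M + 1))
        (rsq_inj (Finset.Subset.refl _)) (by
          have h2 : 2 * A + 6 + 2 * (A + 2) + 5 = 4 * A + 15 := by ring
          rw [h2]
          exact h1)
      rw [Finset.card_range] at h3
      exact h3)
  refine ⟨E, hE1, hE2, fun n hn hnE M hM hMn => ?_⟩
  have hnx := Finset.mem_Icc.mp hn
  -- the near grid point
  have hM0 : (1 : ℝ) ≤ M := le_trans (le_trans (one_le_pow₀ (by linarith)) e2) hM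
  have hUM : (U : ℝ) ≤ M := by
    have h1 : 2 * L ^ (A + 4) ≤ L ^ (A + 5) := by
      rw [pow_succ L (A + 4)]
      nlinarith
    linarith
  have hUM' : U ≤ M := by exact_mod_cast hUM
  have hMx : M ≤ x := by
    have : M ≤ M ^ 2 := Nat.le_self_pow (by norm_num) M
    omega
  obtain ⟨M', hM'g, hM'M, hM'U⟩ := gr_near hU0 hUM' hMx
  have hdiff : ((M : ℝ) - M') * U ≤ M := by
    have h1 : (((M - M') * U : ℕ) : ℝ) ≤ M := by exact_mod_cast hM'U
    rwa [Nat.cast_mul, Nat.cast_sub hM'M] at h1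
  have hM'M' : (M' : ℝ) ≤ M := by exact_mod_cast hM'M
  have hdiff2 : (M : ℝ) - M' ≤ M / L ^ (A + 4) := by
    rw [le_div_iff₀ (by positivity)]
    have h1 : 0 ≤ (M : ℝ) - M' := by linarith
    nlinarith
  have hM'2 : M' ^ 2 < n := lt_of_le_of_lt (Nat.pow_le_pow_left hM'M 2) hMn
  -- the value at the grid point
  have hval : ‖∑ m ∈ range (M' + 1), c m * ((G0 (n - m ^ 2) - G1 (zA B x) (n - m ^ 2) : ℝ) : ℂ)‖ ≤
      2 * M / L ^ (A + 2) := by
    have hSS : SS (zA B x) c (fun m => M' ^ 2 - m ^ 2) (range (M' + 1)) (n - M' ^ 2) =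
        ∑ m ∈ range (M' + 1), c m * ((G0 (n - m ^ 2) - G1 (zA B x) (n - m ^ 2) : ℝ) : ℂ) := by
      unfold SS
      refine Finset.sum_congr rfl fun m hm => ?_
      have h1 : m ^ 2 ≤ M' ^ 2 := Nat.pow_le_pow_left (Nat.lt_succ_iff.mp (Finset.mem_range.mp hm)) 2
      have h2 : n - M' ^ 2 + (M' ^ 2 - m ^ 2) = n - m ^ 2 := by omega
      rw [h2]
    have hM'3 : (x : ℝ) ^ (1 / 6 + ε) ≤ ((M' ^ 2 : ℕ) : ℝ) := by
      have h1 : (M : ℝ) / 2 ≤ M' := by
        have h2 : (M : ℝ) / L ^ (A + 4) ≤ M / 2 := by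
          apply div_le_div_of_nonneg_left (by linarith) (by norm_num)
          calc (2 : ℝ) ≤ L := hL2
            _ ≤ L ^ (A + 4) := le_self_pow₀ (by linarith) (by omega)
        linarith
      have h3 : ((x : ℝ) ^ (1 / 12 + ε)) ^ 2 = (x : ℝ) ^ (1 / 6 + ε) * (x : ℝ) ^ ε := by
        rw [← Real.rpow_natCast, ← Real.rpow_mul hx0.le, ← Real.rpow_add hx0]
        congr 1
        push_cast
        ring
      have h4 : ((x : ℝ) ^ (1 / 12 + ε)) ^ 2 ≤ (M : ℝ) ^ 2 := pow_le_pow_left₀ (by positivity) hM 2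
      have h5 : (0 : ℝ) ≤ (x : ℝ) ^ (1 / 6 + ε) := by positivity
      push_cast
      nlinarith
    have h6 := hE3 n hn hnE M' hM'g ⟨hM'3, by omega⟩ hM'2
    rw [hSS] at h6
    refine h6.trans (div_le_div_of_nonneg_right ?_ (by positivity))
    push_cast
    linarith
  -- the difference
  have hsplit : ∑ m ∈ range (M + 1), c m * ((G0 (n - m ^ 2) - G1 (zA B x) (n - m ^ 2) : ℝ) : ℂ) =
      ∑ m ∈ range (M' + 1), c m * ((G0 (n - m ^ 2) - G1 (zA B x) (n - m ^ 2) : ℝ) : ℂ) +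
      ∑ m ∈ (range (M + 1)).filter (fun m => M' < m),
        c m * ((G0 (n - m ^ 2) - G1 (zA B x) (n - m ^ 2) : ℝ) : ℂ) := by
    rw [← Finset.sum_filter_add_sum_filter_not (range (M + 1)) (fun m => m ≤ M')]
    congr 1
    · refine Finset.sum_congr ?_ fun _ _ => rfl
      ext m
      simp only [Finset.mem_filter, Finset.mem_range]
      constructor
      · rintro ⟨_, h3⟩
        omega
      · intro h3
        exact ⟨by omega, by omega⟩
    · refine Finset.sum_congr ?_ fun _ _ => rfl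
      ext m
      simp only [Finset.mem_filter, not_le]
  have hrest : ‖∑ m ∈ (range (M + 1)).filter (fun m => M' < m),
      c m * ((G0 (n - m ^ 2) - G1 (zA B x) (n - m ^ 2) : ℝ) : ℂ)‖ ≤ M / L ^ (A + 2) := by
    refine (norm_sum_le _ _).trans ((Finset.sum_le_sum fun m _ => norm_term_le hL2 hD (hc m) _).trans ?_)
    rw [Finset.sum_const, nsmul_eq_mul]
    have h1 : (range (M + 1)).filter (fun m => M' < m) ⊆ Ioc M' M := by
      intro m hm
      have h2 := Finset.mem_filter.mp hm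
      rw [Finset.mem_Ioc]
      exact ⟨h2.2, Nat.lt_succ_iff.mp (Finset.mem_range.mp h2.1)⟩
    have h2 := Finset.card_le_card h1
    rw [Nat.card_Ioc] at h2
    have h3 : (((range (M + 1)).filter (fun m => M' < m)).card : ℝ) ≤ M - M' := by
      rw [← Nat.cast_sub hM'M]
      exact_mod_cast h2
    calc (((range (M + 1)).filter (fun m => M' < m)).card : ℝ) * L ^ 2 ≤
        (M / L ^ (A + 4)) * L ^ 2 := mul_le_mul_of_nonneg_right (h3.trans hdiff2) (by positivity)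
      _ = M / L ^ (A + 2) := by
          rw [show A + 4 = (A + 2) + 2 by ring, pow_add L (A + 2) 2]
          field_simp
  rw [hsplit]
  refine (norm_add_le _ _).trans ((add_le_add hval hrest).trans ?_)
  have h1 : 2 * (M : ℝ) / L ^ (A + 2) + M / L ^ (A + 2) = (M / L ^ A) * (3 / L ^ 2) := by
    rw [pow_add]
    field_simp
    ring
  rw [h1]
  have h2 : 3 / L ^ 2 ≤ 1 := by
    rw [div_le_one (by positivity)]
    nlinarith
  exact mul_le_of_le_one_right (by positivity) h2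

end Pool.Agent.SQP
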