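import Mathlib.Data.Nat.Log
import Mathlib.Data.Finset.Prod
import Mathlib.Data.Finset.Card
import Mathlib.Order.Interval.Finset.Nat
import Mathlib.Tactic

/-!
# A geometric grid
-/

set_option autoImplicit false

open Finset

namespace Pool.Agent.SQP

/-- The numbers `u 2^v` with `U ≤ u ≤ 2 U`, `v ≤ log_2 x`. -/
def gr (U x : ℕ) : Finset ℕ :=
  ((Icc U (2 * U)) ×ˢ (range (Nat.log 2 x + 1))).image (fun w => w.1 * 2 ^ w.2)

lemma gr_card (U x : ℕ) : (gr U x).card ≤ (U + 1) * (Nat.log 2 x + 1) := by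
  unfold gr
  refine Finset.card_image_le.trans (le_of_eq ?_)
  rw [Finset.card_product, Nat.card_Icc, Finset.card_range]
  congr 1
  omega

/-- Every `M` is close to a point of the grid. -/
lemma gr_near {U x M : ℕ} (hU : 1 ≤ U) (hUM : U ≤ M) (hMx : M ≤ x) :
    ∃ M' ∈ gr U x, M' ≤ M ∧ (M - M') * U ≤ M := by
  have hq : M / U ≠ 0 := by
    rw [Ne, Nat.div_eq_zero_iff]
    omega
  set v := Nat.log 2 (M / U) with hv
  have h1 : 2 ^ v ≤ M / U := Nat.pow_log_le_self 2 hq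
  have h2 : M / U < 2 ^ (v + 1) := Nat.lt_pow_succ_log_self (by norm_num) _
  have h3 : 2 ^ v * U ≤ M := (Nat.mul_le_mul_right U h1).trans (Nat.div_mul_le_self M U)
  have h4 : M < 2 ^ (v + 1) * U := by
    rwa [Nat.div_lt_iff_lt_mul (by omega)] at h2
  have hp : 0 < 2 ^ v := by positivity
  set u := M / 2 ^ v with hu
  have h5 : U ≤ u := by
    rw [hu, Nat.le_div_iff_mul_le hp, mul_comm]
    exact h3
  have h6 : u < 2 * U := by
    rw [hu, Nat.div_lt_iff_lt_mul hp]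
    calc M < 2 ^ (v + 1) * U := h4
      _ = 2 * U * 2 ^ v := by ring
  have h7 : u * 2 ^ v ≤ M := Nat.div_mul_le_self M _
  have h8 : M - u * 2 ^ v ≤ 2 ^ v := by
    have h9 := Nat.div_add_mod M (2 ^ v)
    have h10 := Nat.mod_lt M hp
    have h11 : 2 ^ v * (M / 2 ^ v) = u * 2 ^ v := by rw [mul_comm]
    omega
  refine ⟨u * 2 ^ v, ?_, h7, (Nat.mul_le_mul_right U h8).trans h3⟩
  unfold gr
  rw [Finset.mem_image]
  refine ⟨(u, v), ?_, rfl⟩
  rw [Finset.mem_product, Finset.mem_Icc, Finset.mem_range]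
  refine ⟨⟨h5, h6.le⟩, ?_⟩
  simp only
  rw [Nat.lt_succ_iff]
  exact Nat.log_mono_right ((Nat.div_le_self M U).trans hMx)

end Pool.Agent.SQP
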