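import Pool.Agent.Lib.HLU.Core
import Pool.Agent.Lib.VK.BrunFine
import Mathlib.NumberTheory.LegendreSymbol.JacobiSymbol
import Mathlib.Algebra.BigOperators.Module

/-!
# The sieve model of the primes on the numbers `n - m²`, `m ≤ M`
-/

set_option autoImplicit false

open Finset Filter

namespace Pool.Agent.SQP

open Pool.Agent.HLB Pool.Agent.HLT Pool.Agent.HLU

/-- The square roots of `n` modulo `p`. -/
def sqr (n p : ℕ) : Finset ℕ := (range p).filter (fun r => r ^ 2 % p = n % p)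

/-- The truncated singular series. -/
noncomputable def SQ (z n : ℕ) : ℝ :=
  ∏ p ∈ (Nat.primesLE z).filter (fun p => p ≠ 2), (1 - (jacobiSym (n : ℤ) p : ℝ) / ((p : ℝ) - 1))

lemma sqr_sub (n p : ℕ) : sqr n p ⊆ range p := Finset.filter_subset _ _

lemma card_sqr (n : ℕ) {p : ℕ} (hp : p.Prime) (h2 : p ≠ 2) :
    ((sqr n p).card : ℤ) = jacobiSym (n : ℤ) p + 1 := by
  have : Fact p.Prime := ⟨hp⟩
  have h1 := legendreSym.card_sqrts p h2 (n : ℤ)
  rw [jacobiSym.legendreSym.to_jacobiSym] at h1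
  rw [← h1]
  congr 1
  refine Finset.card_bij (fun r _ => (r : ZMod p)) ?_ ?_ ?_
  · intro r hr
    have h3 := (Finset.mem_filter.mp hr).2
    rw [Set.mem_toFinset, Set.mem_setOf_eq]
    push_cast
    have h4 : ((r ^ 2 : ℕ) : ZMod p) = ((n : ℕ) : ZMod p) := (ZMod.natCast_eq_natCast_iff' _ _ _).mpr h3
    push_cast at h4
    exact h4
  · intro a ha b hb hab
    have h3 := Finset.mem_range.mp (Finset.mem_filter.mp ha).1
    have h4 := Finset.mem_range.mp (Finset.mem_filter.mp hb).1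
    have h5 := (ZMod.natCast_eq_natCast_iff' _ _ _).mp hab
    rwa [Nat.mod_eq_of_lt h3, Nat.mod_eq_of_lt h4] at h5
  · intro y hy
    rw [Set.mem_toFinset, Set.mem_setOf_eq] at hy
    refine ⟨y.val, ?_, ZMod.natCast_zmod_val y⟩
    refine Finset.mem_filter.mpr ⟨Finset.mem_range.mpr (ZMod.val_lt y), ?_⟩
    rw [← ZMod.natCast_eq_natCast_iff']
    push_cast
    rw [ZMod.natCast_zmod_val, hy]
    push_cast
    rfl

lemma card_sqr_two (n : ℕ) : (sqr n 2).card = 1 := by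
  have h : n % 2 = 0 ∨ n % 2 = 1 := by omega
  rcases h with h | h
  · unfold sqr
    rw [h]
    decide
  · unfold sqr
    rw [h]
    decide

lemma card_sqr_le (n : ℕ) {p : ℕ} (hp : p.Prime) : (sqr n p).card ≤ 2 := by
  by_cases h2 : p = 2
  · rw [h2, card_sqr_two]
    norm_num
  · have h1 := card_sqr n hp h2
    have h3 : jacobiSym (n : ℤ) p ≤ 1 := by
      rcases jacobiSym.trichotomy (n : ℤ) p with h | h | h <;> omega
    have h4 : ((sqr n p).card : ℤ) ≤ 2 := by omega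
    exact_mod_cast h4

lemma prod_sqr (z n : ℕ) :
    (DZ z)⁻¹ * ∏ p ∈ Nat.primesLE z, (1 - ((sqr n p).card : ℝ) / p) = SQ z n := by
  unfold DZ SQ
  rw [← Finset.prod_inv_distrib, ← Finset.prod_mul_distrib, Finset.prod_filter]
  refine Finset.prod_congr rfl fun p hp => ?_
  have hpp := (Nat.mem_primesLE.1 hp).2
  have hp1 : (1 : ℝ) < p := by exact_mod_cast hpp.one_lt
  by_cases h2 : p = 2
  · subst h2
    rw [if_neg (by simp), card_sqr_two]
    norm_num
  · rw [if_pos h2]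
    have h1 : ((sqr n p).card : ℝ) = (jacobiSym (n : ℤ) p : ℝ) + 1 := by
      have := card_sqr n hpp h2
      exact_mod_cast this
    rw [h1]
    have h3 : (p : ℝ) - 1 ≠ 0 := by linarith
    have h4 : (p : ℝ) ≠ 0 := by linarith
    have h5 : (1 - 1 / (p : ℝ)) ≠ 0 := by
      rw [Ne, sub_eq_zero]
      intro h
      rw [eq_div_iff h4] at h
      linarith
    field_simp
    ring

lemma dvd_iff {n m p : ℕ} (hp : 0 < p) (h : m ^ 2 ≤ n) : p ∣ n - m ^ 2 ↔ m % p ∈ sqr n p := by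
  unfold sqr
  rw [Finset.mem_filter, Finset.mem_range, ← Nat.modEq_iff_dvd' h]
  unfold Nat.ModEq
  constructor
  · intro h1
    exact ⟨Nat.mod_lt _ hp, by rw [← Nat.pow_mod]; exact h1⟩
  · rintro ⟨_, h1⟩
    rwa [← Nat.pow_mod] at h1

lemma ic_eq {z n m : ℕ} (h : m ^ 2 ≤ n) :
    ic z (n - m ^ 2) = if ∀ p ∈ Nat.primesLE z, m % p ∉ sqr n p then 1 else 0 := by
  unfold ic
  refine if_congr ?_ rfl rfl
  refine forall_congr' fun p => forall_congr' fun hp => ?_
  rw [dvd_iff (Nat.mem_primesLE.1 hp).2.pos h]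

/-- Summation by parts with a monotone weight. -/
lemma abel_mono (N : ℕ) (c g : ℕ → ℝ) (G D : ℝ) (hg0 : ∀ m ≤ N, 0 ≤ g m) (hgN : g N ≤ G)
    (hmono : ∀ m < N, g m ≤ g (m + 1)) (hc : ∀ y ≤ N, |∑ m ∈ range (y + 1), c m| ≤ D) :
    |∑ m ∈ range (N + 1), g m * c m| ≤ 2 * G * D := by
  have h := Finset.sum_range_by_parts g c (N + 1)
  simp only [smul_eq_mul, Nat.add_sub_cancel] at h
  rw [h]
  have hD : 0 ≤ D := (abs_nonneg _).trans (hc 0 (Nat.zero_le _))
  have h1 : |g N * ∑ i ∈ range (N + 1), c i| ≤ G * D := by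
    rw [abs_mul, abs_of_nonneg (hg0 N le_rfl)]
    exact mul_le_mul hgN (hc N le_rfl) (abs_nonneg _) ((hg0 N le_rfl).trans hgN)
  have h2 : |∑ i ∈ range N, (g (i + 1) - g i) * ∑ i ∈ range (i + 1), c i| ≤ G * D := by
    calc |∑ i ∈ range N, (g (i + 1) - g i) * ∑ i ∈ range (i + 1), c i| ≤
        ∑ i ∈ range N, |(g (i + 1) - g i) * ∑ i ∈ range (i + 1), c i| := Finset.abs_sum_le_sum_abs _ _
      _ ≤ ∑ i ∈ range N, (g (i + 1) - g i) * D := by
          refine Finset.sum_le_sum fun i hi => ?_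
          have hi' := Finset.mem_range.mp hi
          rw [abs_mul, abs_of_nonneg (sub_nonneg.mpr (hmono i hi'))]
          exact mul_le_mul_of_nonneg_left (hc i hi'.le) (sub_nonneg.mpr (hmono i hi'))
      _ = (g N - g 0) * D := by rw [← Finset.sum_mul, Finset.sum_range_sub]
      _ ≤ G * D := by
          refine mul_le_mul_of_nonneg_right ?_ hD
          have := hg0 0 (Nat.zero_le _)
          linarith
  calc |g N * ∑ i ∈ range (N + 1), c i - ∑ i ∈ range N, (g (i + 1) - g i) * ∑ i ∈ range (i + 1), c i| ≤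
      |g N * ∑ i ∈ range (N + 1), c i| + |∑ i ∈ range N, (g (i + 1) - g i) * ∑ i ∈ range (i + 1), c i| :=
        abs_sub _ _
    _ ≤ 2 * G * D := by linarith

theorem sieve_sq (A B : ℕ) : ∀ᶠ x : ℕ in atTop, ∀ n M : ℕ, (x : ℝ) ^ (1 / 12 : ℝ) ≤ M → M ^ 2 + 2 ≤ n →
    |∑ m ∈ range (M + 1), G1 (zA B x) (n - m ^ 2) -
      SQ (zA B x) n * ∑ m ∈ range (M + 1), 1 / Real.log ((n - m ^ 2 : ℕ) : ℝ)| ≤ M / Real.log x ^ A := by
  have e1 : ∀ᶠ x : ℕ in atTop, ((x : ℝ) ^ (1 / 20 : ℝ) + 1) * Real.log x ^ (A + 3) ≤ (x : ℝ) ^ (1 / 12 : ℝ) := by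
    have h1 : (fun x : ℝ => Real.log x ^ (A + 3)) =o[atTop] (fun x : ℝ => x ^ (1 / 30 : ℝ)) := by
      have h := isLittleO_log_rpow_rpow_atTop ((A + 3 : ℕ) : ℝ) (show (0:ℝ) < 1 / 30 by norm_num)
      simp only [Real.rpow_natCast] at h
      exact h
    have h2 := (h1.comp_tendsto tendsto_natCast_atTop_atTop).bound (show (0:ℝ) < 1 / 2 by norm_num)
    filter_upwards [h2, ev_log 1, eventually_ge_atTop 1] with x hx hL hx1
    have hx0 : (1 : ℝ) ≤ x := by exact_mod_cast hx1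
    simp only [Function.comp_def] at hx
    rw [Real.norm_of_nonneg (by positivity), Real.norm_of_nonneg (by positivity)] at hx
    have h3 : (1 : ℝ) ≤ (x : ℝ) ^ (1 / 20 : ℝ) := Real.one_le_rpow hx0 (by norm_num)
    have h4 : (x : ℝ) ^ (1 / 20 : ℝ) * (x : ℝ) ^ (1 / 30 : ℝ) = (x : ℝ) ^ (1 / 12 : ℝ) := by
      rw [← Real.rpow_add (by linarith)]
      norm_num
    calc ((x : ℝ) ^ (1 / 20 : ℝ) + 1) * Real.log x ^ (A + 3) ≤
        (2 * (x : ℝ) ^ (1 / 20 : ℝ)) * (1 / 2 * (x : ℝ) ^ (1 / 30 : ℝ)) :=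
          mul_le_mul (by linarith) hx (by positivity) (by positivity)
      _ = (x : ℝ) ^ (1 / 12 : ℝ) := by
          rw [← h4]
          ring
  filter_upwards [e1, VK.brun_fine 2 B (A + 3), DZ_inv_le B, ev_log 4] with x e1 hb hD hL n M hM hMn
  set L := Real.log x with hLdef
  set z := zA B x with hz
  have hL0 : 0 < L := by linarith
  have hM0 : (0 : ℝ) ≤ M := Nat.cast_nonneg M
  obtain ⟨k, hk, hk1, hk2⟩ := hb
  have hle : ∀ m : ℕ, m ≤ M → m ^ 2 + 2 ≤ n := fun m hm => by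
    have := Nat.pow_le_pow_left hm 2
    omega
  set ρ : ℝ := ∏ p ∈ Nat.primesLE z, (1 - ((sqr n p).card : ℝ) / p) with hρ
  have hρ0 : 0 ≤ ρ ∧ ρ ≤ 1 := by
    have h1 : ∀ p ∈ Nat.primesLE z, 0 ≤ 1 - ((sqr n p).card : ℝ) / p ∧ 1 - ((sqr n p).card : ℝ) / p ≤ 1 := by
      intro p hp
      have hp0 : (0 : ℝ) < p := by exact_mod_cast (Nat.mem_primesLE.1 hp).2.pos
      have h2 := Finset.card_le_card (sqr_sub n p)
      rw [Finset.card_range] at h2
      have h3 : ((sqr n p).card : ℝ) ≤ p := by exact_mod_cast h2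
      have h4 : ((sqr n p).card : ℝ) / p ≤ 1 := (div_le_one hp0).mpr h3
      have h5 : 0 ≤ ((sqr n p).card : ℝ) / p := by positivity
      constructor <;> linarith
    exact ⟨Finset.prod_nonneg fun p hp => (h1 p hp).1,
      Finset.prod_le_one (fun p hp => (h1 p hp).1) fun p hp => (h1 p hp).2⟩
  set ind : ℕ → ℝ := fun m => if ∀ p ∈ Nat.primesLE z, m % p ∉ sqr n p then 1 else 0 with hind
  set c : ℕ → ℝ := fun m => ind m - ρ with hc
  set g : ℕ → ℝ := fun m => 1 / Real.log ((n - m ^ 2 : ℕ) : ℝ) with hg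
  have hC : ∀ y ≤ M, |∑ m ∈ range (y + 1), c m| ≤ 3 * M / L ^ (A + 3) := by
    intro y hy
    have h1 := brun_det 2 z k y hk (sqr n) (fun p hp =>
      ⟨sqr_sub n p, card_sqr_le n (Nat.mem_primesLE.1 hp).2⟩)
    push_cast at h1 hk1 hk2
    have h2 : ∑ m ∈ range (y + 1), c m = (ind 0 - ρ) +
        ((((Icc 1 y).filter (fun n_1 => ∀ p ∈ Nat.primesLE z, n_1 % p ∉ sqr n p)).card : ℝ) - y * ρ) := by
      rw [Finset.sum_range_succ', add_comm]
      congr 1
      have h3 : ∑ i ∈ range y, c (i + 1) = ∑ i ∈ Icc 1 y, c i := by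
        rw [Finset.range_eq_Ico, Finset.sum_Ico_add' c 0 y 1]
        rfl
      rw [h3, hc]
      simp only
      rw [Finset.sum_sub_distrib, Finset.sum_const, Nat.card_Icc, Nat.add_sub_cancel, nsmul_eq_mul,
        Finset.card_filter]
      push_cast
      rfl
    have h4 : |ind 0 - ρ| ≤ 1 := by
      rw [hind]
      simp only
      split_ifs
      · rw [abs_le]
        constructor <;> linarith [hρ0.1, hρ0.2]
      · rw [abs_le]
        constructor <;> linarith [hρ0.1, hρ0.2]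
    have hyM : (y : ℝ) ≤ M := by exact_mod_cast hy
    have h5 : 2 * (y : ℝ) * ((2 * ∑ p ∈ Nat.primesLE z, 1 / (p : ℝ)) ^ (k + 1) / ((k + 1).factorial : ℝ)) ≤
        2 * M / L ^ (A + 3) := by
      calc _ ≤ 2 * (M : ℝ) * (1 / L ^ (A + 3)) :=
            mul_le_mul (by linarith) hk1 (by positivity) (by positivity)
        _ = 2 * M / L ^ (A + 3) := by ring
    have h6 : (x : ℝ) ^ (1 / 20 : ℝ) + 1 ≤ M / L ^ (A + 3) := by
      rw [le_div_iff₀ (by positivity)]
      exact e1.trans hM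
    rw [h2]
    refine (abs_add_le _ _).trans ?_
    have h7 : 3 * (M : ℝ) / L ^ (A + 3) = 2 * M / L ^ (A + 3) + M / L ^ (A + 3) := by ring
    rw [h7]
    have h8 := h1.trans (add_le_add h5 hk2)
    linarith
  have hgM : ∀ m ≤ M, 2 ≤ n - m ^ 2 := fun m hm => by
    have := hle m hm
    omega
  have key := abel_mono M c g 2 (3 * M / L ^ (A + 3)) (fun m _ => inv_log_nonneg _) (inv_log_le _)
    (fun m hm => by
      rw [hg]
      simp only
      have h1 := hgM (m + 1) hm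
      have h2 : n - (m + 1) ^ 2 ≤ n - m ^ 2 := Nat.sub_le_sub_left (Nat.pow_le_pow_left (by omega) 2) n
      have h3 : (0 : ℝ) < Real.log ((n - (m + 1) ^ 2 : ℕ) : ℝ) :=
        Real.log_pos (by exact_mod_cast h1)
      refine one_div_le_one_div_of_le h3 (Real.log_le_log ?_ (by exact_mod_cast h2))
      have : 0 < n - (m + 1) ^ 2 := by omega
      exact_mod_cast this) hC
  have hmain : ∑ m ∈ range (M + 1), G1 z (n - m ^ 2) - SQ z n * ∑ m ∈ range (M + 1), g m =
      (DZ z)⁻¹ * ∑ m ∈ range (M + 1), g m * c m := by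
    rw [← prod_sqr, ← hρ, mul_assoc, Finset.mul_sum, Finset.mul_sum, Finset.mul_sum,
      ← Finset.sum_sub_distrib]
    refine Finset.sum_congr rfl fun m hm => ?_
    have hm' : m ≤ M := Nat.lt_succ_iff.mp (Finset.mem_range.mp hm)
    have h1 := hle m hm'
    unfold G1 nuz
    rw [ic_eq (by omega : m ^ 2 ≤ n)]
    rw [hc, hg, hind]
    simp only
    ring
  rw [hmain, abs_mul, abs_of_nonneg (inv_nonneg.mpr (DZ_pos z).le)]
  calc (DZ z)⁻¹ * |∑ m ∈ range (M + 1), g m * c m| ≤ L * (2 * 2 * (3 * M / L ^ (A + 3))) :=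
        mul_le_mul hD key (abs_nonneg _) hL0.le
    _ = (M / L ^ A) * (12 / L ^ 2) := by
        rw [pow_add]
        field_simp
        ring
    _ ≤ M / L ^ A := by
        refine mul_le_of_le_one_right (by positivity) ?_
        rw [div_le_one (by positivity)]
        nlinarith

end Pool.Agent.SQP
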