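import Pool.Agent.Lib.SQP.Char
import Pool.Agent.Lib.SQP.Grid
import Pool.Agent.Lib.SQP.Sieve
import Mathlib.Analysis.PSeries

/-!
# The truncated singular series for almost all `n`
-/

set_option autoImplicit false

open Finset Filter

namespace Pool.Agent.SQP

open Pool.Agent.HLB Pool.Agent.HLT Pool.Agent.HLU

/-- The primes between `z1` and `z`. -/
def pb (z1 z : ℕ) : Finset ℕ := (Nat.primesLE z).filter (fun p => z1 < p)

/-- The sum over the primes between `z1` and `z`. -/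
noncomputable def VV (z1 z n : ℕ) : ℝ := ∑ p ∈ pb z1 z, jr n p / ((p : ℝ) - 1)

lemma mem_pb {z1 z p : ℕ} : p ∈ pb z1 z ↔ (p ≤ z ∧ p.Prime) ∧ z1 < p := by
  unfold pb
  rw [Finset.mem_filter, Nat.mem_primesLE]

lemma sum_inv_sq (z1 z : ℕ) (hz : 2 ≤ z1) : ∑ p ∈ pb z1 z, 1 / ((p : ℝ) - 1) ^ 2 ≤ 2 / (z1 : ℝ) := by
  have h1 : ∑ p ∈ pb z1 z, 1 / ((p : ℝ) - 1) ^ 2 =
      ∑ i ∈ (pb z1 z).image (fun p : ℕ => (p - 1 : ℕ)), ((i : ℝ) ^ 2)⁻¹ := by
    rw [Finset.sum_image]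
    · refine Finset.sum_congr rfl fun p hp => ?_
      have h2 := (mem_pb.mp hp).1.2.one_lt
      rw [Nat.cast_sub h2.le, Nat.cast_one, one_div]
    · intro a ha b hb hab
      have h2 := (mem_pb.mp (Finset.mem_coe.mp ha)).1.2.one_lt
      have h3 := (mem_pb.mp (Finset.mem_coe.mp hb)).1.2.one_lt
      simp only at hab
      omega
  rw [h1]
  have h3 : (pb z1 z).image (fun p : ℕ => (p - 1 : ℕ)) ⊆ Ioo (z1 - 1) z := by
    intro i hi
    obtain ⟨p, hp, rfl⟩ := Finset.mem_image.mp hi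
    have h4 := mem_pb.mp hp
    have h5 := h4.1.2.one_lt
    rw [Finset.mem_Ioo]
    omega
  refine (Finset.sum_le_sum_of_subset_of_nonneg h3 fun i _ _ => by positivity).trans ?_
  refine (sum_Ioo_inv_sq_le (z1 - 1) z).trans (le_of_eq ?_)
  rw [Nat.cast_sub (by omega), Nat.cast_one, sub_add_cancel]

lemma card_pb (z1 z : ℕ) : (pb z1 z).card ≤ z := by
  have : pb z1 z ⊆ Icc 1 z := by
    intro p hp
    have h := mem_pb.mp hp
    rw [Finset.mem_Icc]
    exact ⟨h.1.2.one_lt.le, h.1.1⟩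
  simpa using Finset.card_le_card this

/-- The mean square. -/
lemma VV_sq (z1 z x : ℕ) (hz : 2 ≤ z1) :
    ∑ n ∈ Icc 1 x, VV z1 z n ^ 2 ≤ x * (2 / z1) + 4 * (z : ℝ) ^ 2 := by
  classical
  have h1 : ∑ n ∈ Icc 1 x, VV z1 z n ^ 2 = ∑ p ∈ pb z1 z, ∑ q ∈ pb z1 z,
      1 / ((p : ℝ) - 1) * (1 / ((q : ℝ) - 1)) * ∑ n ∈ Icc 1 x, jr n p * jr n q := by
    have h2 : ∀ n ∈ Icc 1 x, VV z1 z n ^ 2 = ∑ p ∈ pb z1 z, ∑ q ∈ pb z1 z,
        1 / ((p : ℝ) - 1) * (1 / ((q : ℝ) - 1)) * (jr n p * jr n q) := by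
      intro n _
      unfold VV
      rw [sq, Finset.sum_mul_sum]
      refine Finset.sum_congr rfl fun p _ => Finset.sum_congr rfl fun q _ => ?_
      ring
    rw [Finset.sum_congr rfl h2, Finset.sum_comm]
    refine Finset.sum_congr rfl fun p _ => ?_
    rw [Finset.sum_comm]
    refine Finset.sum_congr rfl fun q _ => ?_
    rw [Finset.mul_sum]
  rw [h1]
  have h3 : ∀ p ∈ pb z1 z, ∀ q ∈ pb z1 z,
      1 / ((p : ℝ) - 1) * (1 / ((q : ℝ) - 1)) * ∑ n ∈ Icc 1 x, jr n p * jr n q ≤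
        (if p = q then x * (1 / ((p : ℝ) - 1) ^ 2) else 0) + 4 := by
    intro p hp q hq
    have hp' := mem_pb.mp hp
    have hq' := mem_pb.mp hq
    have hp1 : (2 : ℝ) ≤ p := by exact_mod_cast hp'.1.2.two_le
    have hq1 : (2 : ℝ) ≤ q := by exact_mod_cast hq'.1.2.two_le
    by_cases hpq : p = q
    · subst hpq
      rw [if_pos rfl]
      have h4 : ∑ n ∈ Icc 1 x, jr n p * jr n p ≤ x := by
        calc ∑ n ∈ Icc 1 x, jr n p * jr n p ≤ ∑ _n ∈ Icc 1 x, (1 : ℝ) :=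
              Finset.sum_le_sum fun n _ => jr_sq_le n p
          _ = x := by simp
      have h5 : 0 ≤ 1 / ((p : ℝ) - 1) * (1 / ((p : ℝ) - 1)) := by
        have : 0 < (p : ℝ) - 1 := by linarith
        positivity
      calc 1 / ((p : ℝ) - 1) * (1 / ((p : ℝ) - 1)) * ∑ n ∈ Icc 1 x, jr n p * jr n p ≤
          1 / ((p : ℝ) - 1) * (1 / ((p : ℝ) - 1)) * x := mul_le_mul_of_nonneg_left h4 h5
        _ = x * (1 / ((p : ℝ) - 1) ^ 2) := by
            field_simp
        _ ≤ _ := by linarith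
    · rw [if_neg hpq, zero_add]
      have h4 := (le_abs_self _).trans (sum_two hp'.1.2 (by omega) hq'.1.2 hpq x)
      have h5 : 0 ≤ 1 / ((p : ℝ) - 1) * (1 / ((q : ℝ) - 1)) := by
        have : 0 < (p : ℝ) - 1 := by linarith
        have : 0 < (q : ℝ) - 1 := by linarith
        positivity
      calc 1 / ((p : ℝ) - 1) * (1 / ((q : ℝ) - 1)) * ∑ n ∈ Icc 1 x, jr n p * jr n q ≤
          1 / ((p : ℝ) - 1) * (1 / ((q : ℝ) - 1)) * (p * q) := mul_le_mul_of_nonneg_left h4 h5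
        _ = (p / ((p : ℝ) - 1)) * (q / ((q : ℝ) - 1)) := by
            field_simp
        _ ≤ 2 * 2 := by
            have h6 : (p : ℝ) / ((p : ℝ) - 1) ≤ 2 := by
              rw [div_le_iff₀ (by linarith)]
              linarith
            have h7 : (q : ℝ) / ((q : ℝ) - 1) ≤ 2 := by
              rw [div_le_iff₀ (by linarith)]
              linarith
            have h8 : 0 ≤ (q : ℝ) / ((q : ℝ) - 1) := div_nonneg (by linarith) (by linarith)
            exact mul_le_mul h6 h7 h8 (by norm_num)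
        _ = 4 := by norm_num
  calc ∑ p ∈ pb z1 z, ∑ q ∈ pb z1 z,
      1 / ((p : ℝ) - 1) * (1 / ((q : ℝ) - 1)) * ∑ n ∈ Icc 1 x, jr n p * jr n q ≤
      ∑ p ∈ pb z1 z, ∑ q ∈ pb z1 z, ((if p = q then x * (1 / ((p : ℝ) - 1) ^ 2) else 0) + 4) :=
        Finset.sum_le_sum fun p hp => Finset.sum_le_sum fun q hq => h3 p hp q hq
    _ = x * ∑ p ∈ pb z1 z, 1 / ((p : ℝ) - 1) ^ 2 + 4 * ((pb z1 z).card : ℝ) ^ 2 := by
        simp only [Finset.sum_add_distrib, Finset.sum_const, nsmul_eq_mul]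
        rw [Finset.mul_sum]
        congr 1
        · refine Finset.sum_congr rfl fun p hp => ?_
          rw [Finset.sum_ite_eq, if_pos hp]
        · ring
    _ ≤ x * (2 / z1) + 4 * (z : ℝ) ^ 2 := by
        have h4 : ((pb z1 z).card : ℝ) ≤ z := by exact_mod_cast card_pb z1 z
        have h5 := sum_inv_sq z1 z hz
        have h6 : ((pb z1 z).card : ℝ) ^ 2 ≤ (z : ℝ) ^ 2 := pow_le_pow_left₀ (Nat.cast_nonneg _) h4 2
        have h7 : (x : ℝ) * ∑ p ∈ pb z1 z, 1 / ((p : ℝ) - 1) ^ 2 ≤ x * (2 / z1) :=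
          mul_le_mul_of_nonneg_left h5 (Nat.cast_nonneg _)
        linarith

lemma VV_bad (z1 z x : ℕ) (hz : 2 ≤ z1) (δ : ℝ) (hδ : 0 < δ) :
    (((Icc 1 x).filter (fun n => δ < |VV z1 z n|)).card : ℝ) ≤ (x * (2 / z1) + 4 * (z : ℝ) ^ 2) / δ ^ 2 := by
  rw [le_div_iff₀ (by positivity)]
  refine le_trans ?_ (VV_sq z1 z x hz)
  set D := (Icc 1 x).filter (fun n => δ < |VV z1 z n|) with hD
  calc (D.card : ℝ) * δ ^ 2 = ∑ _n ∈ D, δ ^ 2 := by rw [Finset.sum_const, nsmul_eq_mul]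
    _ ≤ ∑ n ∈ D, VV z1 z n ^ 2 := by
        refine Finset.sum_le_sum fun n hn => ?_
        rw [← sq_abs (VV z1 z n)]
        exact pow_le_pow_left₀ hδ.le (Finset.mem_filter.mp hn).2.le 2
    _ ≤ ∑ n ∈ Icc 1 x, VV z1 z n ^ 2 :=
        Finset.sum_le_sum_of_subset_of_nonneg (Finset.filter_subset _ _) fun n _ _ => sq_nonneg _

/-- Comparison of two ends. -/
lemma VV_diff (z1 z' z n : ℕ) (hz' : 1 ≤ z') (h : z' ≤ z) :
    |VV z1 z n| ≤ |VV z1 z' n| + ((z : ℝ) - z') / z' := by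
  classical
  have h1 : VV z1 z n = VV z1 z' n + ∑ p ∈ (pb z1 z).filter (fun p => z' < p), jr n p / ((p : ℝ) - 1) := by
    unfold VV
    rw [← Finset.sum_filter_add_sum_filter_not (pb z1 z) (fun p => p ≤ z')]
    congr 1
    · refine Finset.sum_congr ?_ fun _ _ => rfl
      ext p
      rw [Finset.mem_filter, mem_pb, mem_pb]
      constructor
      · rintro ⟨⟨⟨_, h2⟩, h3⟩, h4⟩
        exact ⟨⟨h4, h2⟩, h3⟩
      · rintro ⟨⟨h4, h2⟩, h3⟩
        exact ⟨⟨⟨by omega, h2⟩, h3⟩, h4⟩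
    · refine Finset.sum_congr ?_ fun _ _ => rfl
      ext p
      simp only [Finset.mem_filter, not_le]
  rw [h1]
  refine (abs_add_le _ _).trans (add_le_add le_rfl ?_)
  have hz0 : (0 : ℝ) < z' := by exact_mod_cast hz'
  refine (Finset.abs_sum_le_sum_abs _ _).trans ?_
  calc ∑ p ∈ (pb z1 z).filter (fun p => z' < p), |jr n p / ((p : ℝ) - 1)| ≤
      ∑ _p ∈ (pb z1 z).filter (fun p => z' < p), 1 / (z' : ℝ) := by
        refine Finset.sum_le_sum fun p hp => ?_
        have h2 := (Finset.mem_filter.mp hp).2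
        have h3 : (z' : ℝ) + 1 ≤ p := by exact_mod_cast h2
        have h4 : (0 : ℝ) < (p : ℝ) - 1 := by linarith
        rw [abs_div, abs_of_pos h4]
        exact div_le_div₀ zero_le_one (jr_abs n p) hz0 (by linarith)
    _ = ((pb z1 z).filter (fun p => z' < p)).card * (1 / (z' : ℝ)) := by rw [Finset.sum_const, nsmul_eq_mul]
    _ ≤ ((z : ℝ) - z') * (1 / z') := by
        refine mul_le_mul_of_nonneg_right ?_ (by positivity)
        have h2 : (pb z1 z).filter (fun p => z' < p) ⊆ Ioc z' z := by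
          intro p hp
          have h3 := Finset.mem_filter.mp hp
          rw [Finset.mem_Ioc]
          exact ⟨h3.2, (mem_pb.mp h3.1).1.1⟩
        have h4 := Finset.card_le_card h2
        rw [Nat.card_Ioc] at h4
        rw [← Nat.cast_sub h]
        exact_mod_cast h4
    _ = ((z : ℝ) - z') / z' := by ring

lemma log_one_sub (u : ℝ) (hu : |u| ≤ 1 / 2) : |Real.log (1 - u) + u| ≤ 2 * u ^ 2 := by
  rw [abs_le] at hu
  have h1 : 0 < 1 - u := by linarith
  have h2 := Real.log_le_sub_one_of_pos h1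
  have h3 := Real.one_sub_inv_le_log_of_pos h1
  have h4 : 1 - (1 - u)⁻¹ = -u / (1 - u) := by
    field_simp
    ring
  have h5 : -u - 2 * u ^ 2 ≤ -u / (1 - u) := by
    rw [le_div_iff₀ h1]
    nlinarith [sq_nonneg u]
  rw [abs_le]
  constructor
  · linarith
  · nlinarith [sq_nonneg u]

/-- The ratio of two truncations. -/
lemma SQ_ratio (z1 z n : ℕ) (hz : 3 ≤ z1) (h : z1 ≤ z) (δ : ℝ) (hδ : |VV z1 z n| + 4 / z1 ≤ δ) (hδ1 : δ ≤ 1) :
    |SQ z n - SQ z1 n| ≤ SQ z1 n * (2 * δ) := by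
  classical
  have hS0 : 0 ≤ SQ z1 n := by
    unfold SQ
    refine Finset.prod_nonneg fun p hp => ?_
    obtain ⟨h1, h2⟩ := Finset.mem_filter.mp hp
    have h3 := (Nat.mem_primesLE.1 h1).2.two_le
    have h4 : (3 : ℝ) ≤ p := by
      have : 3 ≤ p := by omega
      exact_mod_cast this
    have h5 := jr_abs n p
    unfold jr at h5
    rw [abs_le] at h5
    have h6 : (jacobiSym (n : ℤ) p : ℝ) / ((p : ℝ) - 1) ≤ 1 := by
      rw [div_le_one (by linarith)]
      linarith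
    linarith
  have hfac : ∀ p ∈ pb z1 z, 0 < 1 - jr n p / ((p : ℝ) - 1) ∧ |jr n p / ((p : ℝ) - 1)| ≤ 1 / 2 ∧
      (jr n p / ((p : ℝ) - 1)) ^ 2 ≤ 1 / ((p : ℝ) - 1) ^ 2 := by
    intro p hp
    have h1 := (mem_pb.mp hp).2
    have h2 : (4 : ℝ) ≤ p := by
      have : 4 ≤ p := by omega
      exact_mod_cast this
    have h3 := jr_abs n p
    have h4 : (0 : ℝ) < (p : ℝ) - 1 := by linarith
    have h5 : |jr n p / ((p : ℝ) - 1)| ≤ 1 / 2 := by
      rw [abs_div, abs_of_pos h4]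
      exact div_le_div₀ zero_le_one h3 (by norm_num) (by linarith)
    refine ⟨?_, h5, ?_⟩
    · rw [abs_le] at h5
      linarith
    · rw [div_pow]
      refine div_le_div_of_nonneg_right ?_ (by positivity)
      rw [← sq_abs]
      exact pow_le_one₀ (abs_nonneg _) h3
  set R : ℝ := ∏ p ∈ pb z1 z, (1 - jr n p / ((p : ℝ) - 1)) with hR
  have hRpos : 0 < R := Finset.prod_pos fun p hp => (hfac p hp).1
  have hsplit : SQ z n = SQ z1 n * R := by
    unfold SQ
    rw [hR, ← Finset.prod_filter_mul_prod_filter_not ((Nat.primesLE z).filter (fun p => p ≠ 2)) (fun p => p ≤ z1)]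
    congr 1
    · refine Finset.prod_congr ?_ fun _ _ => rfl
      ext p
      simp only [Finset.mem_filter, Nat.mem_primesLE]
      constructor
      · rintro ⟨⟨⟨_, h2⟩, h3⟩, h4⟩
        exact ⟨⟨h4, h2⟩, h3⟩
      · rintro ⟨⟨h4, h2⟩, h3⟩
        exact ⟨⟨⟨by omega, h2⟩, h3⟩, h4⟩
    · refine Finset.prod_congr ?_ fun _ _ => rfl
      ext p
      simp only [Finset.mem_filter, Nat.mem_primesLE, not_le, mem_pb]
      constructor
      · rintro ⟨⟨h2, _⟩, h4⟩
        exact ⟨h2, h4⟩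
      · rintro ⟨h2, h4⟩
        exact ⟨⟨h2, by omega⟩, h4⟩
  have hlogR : |Real.log R| ≤ δ := by
    have h1 : Real.log R = ∑ p ∈ pb z1 z, Real.log (1 - jr n p / ((p : ℝ) - 1)) :=
      Real.log_prod fun p hp => (hfac p hp).1.ne'
    have h2 : Real.log R + VV z1 z n = ∑ p ∈ pb z1 z,
        (Real.log (1 - jr n p / ((p : ℝ) - 1)) + jr n p / ((p : ℝ) - 1)) := by
      rw [h1, Finset.sum_add_distrib]
      rfl
    have h3 : |Real.log R + VV z1 z n| ≤ 4 / z1 := by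
      rw [h2]
      calc |∑ p ∈ pb z1 z, (Real.log (1 - jr n p / ((p : ℝ) - 1)) + jr n p / ((p : ℝ) - 1))| ≤
          ∑ p ∈ pb z1 z, |Real.log (1 - jr n p / ((p : ℝ) - 1)) + jr n p / ((p : ℝ) - 1)| :=
            Finset.abs_sum_le_sum_abs _ _
        _ ≤ ∑ p ∈ pb z1 z, 2 * (1 / ((p : ℝ) - 1) ^ 2) := by
            refine Finset.sum_le_sum fun p hp => ?_
            obtain ⟨_, h5, h6⟩ := hfac p hp
            exact (log_one_sub _ h5).trans (by linarith)
        _ ≤ 2 * (2 / z1) := by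
            rw [← Finset.mul_sum]
            exact mul_le_mul_of_nonneg_left (sum_inv_sq z1 z (by omega)) (by norm_num)
        _ = 4 / z1 := by ring
    have h4 : Real.log R = (Real.log R + VV z1 z n) - VV z1 z n := by ring
    rw [h4]
    refine (abs_sub _ _).trans ?_
    linarith
  have hexp := Real.abs_exp_sub_one_le (hlogR.trans hδ1)
  rw [Real.exp_log hRpos] at hexp
  rw [hsplit, show SQ z1 n * R - SQ z1 n = SQ z1 n * (R - 1) by ring, abs_mul, abs_of_nonneg hS0]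
  exact mul_le_mul_of_nonneg_left (hexp.trans (by linarith)) hS0

lemma SQ_nonneg (z n : ℕ) : 0 ≤ SQ z n := by
  unfold SQ
  refine Finset.prod_nonneg fun p hp => ?_
  obtain ⟨h1, h2⟩ := Finset.mem_filter.mp hp
  have h3 := (Nat.mem_primesLE.1 h1).2.two_le
  have h4 : (3 : ℝ) ≤ p := by
    have : 3 ≤ p := by omega
    exact_mod_cast this
  have h5 := jr_abs n p
  unfold jr at h5
  rw [abs_le] at h5
  have h6 : (jacobiSym (n : ℤ) p : ℝ) / ((p : ℝ) - 1) ≤ 1 := by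
    rw [div_le_one (by linarith)]
    linarith
  linarith

lemma SQ_le (z n : ℕ) : SQ z n ≤ (DZ z)⁻¹ := by
  rw [← prod_sqr]
  refine mul_le_of_le_one_right (inv_nonneg.mpr (DZ_pos z).le) ?_
  have h1 : ∀ p ∈ Nat.primesLE z, 0 ≤ 1 - ((sqr n p).card : ℝ) / p ∧ 1 - ((sqr n p).card : ℝ) / p ≤ 1 := by
    intro p hp
    have hp0 : (0 : ℝ) < p := by exact_mod_cast (Nat.mem_primesLE.1 hp).2.pos
    have h2 := Finset.card_le_card (sqr_sub n p)
    rw [Finset.card_range] at h2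
    have h3 : ((sqr n p).card : ℝ) ≤ p := by exact_mod_cast h2
    have h4 : ((sqr n p).card : ℝ) / p ≤ 1 := (div_le_one hp0).mpr h3
    have h5 : 0 ≤ ((sqr n p).card : ℝ) / p := by positivity
    constructor <;> linarith
  exact Finset.prod_le_one (fun p hp => (h1 p hp).1) fun p hp => (h1 p hp).2

/-- Lower bound for the truncated singular series. -/
lemma SQ_ge (z n : ℕ) : DZ z ^ 2 ≤ SQ z n := by
  unfold SQ DZ
  rw [← Finset.prod_pow, Finset.prod_filter]
  refine Finset.prod_le_prod (fun p _ => sq_nonneg _) fun p hp => ?_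
  have hpp := (Nat.mem_primesLE.1 hp).2
  have hp2 : (2 : ℝ) ≤ p := by exact_mod_cast hpp.two_le
  have h1 : 0 ≤ 1 - 1 / (p : ℝ) ∧ 1 - 1 / (p : ℝ) ≤ 1 := by
    have h2 : 1 / (p : ℝ) ≤ 1 := by
      rw [div_le_one (by linarith)]
      linarith
    have h3 : 0 ≤ 1 / (p : ℝ) := by positivity
    constructor <;> linarith
  by_cases h2 : p = 2
  · rw [if_neg (by simpa using h2)]
    exact pow_le_one₀ h1.1 h1.2
  · rw [if_pos h2]
    have h4 : (3 : ℝ) ≤ p := by
      have := hpp.two_le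
      have : 3 ≤ p := by omega
      exact_mod_cast this
    have h5 := jr_abs n p
    unfold jr at h5
    rw [abs_le] at h5
    have h6 : (jacobiSym (n : ℤ) p : ℝ) / ((p : ℝ) - 1) ≤ 1 / ((p : ℝ) - 1) :=
      div_le_div_of_nonneg_right h5.2 (by linarith)
    have h7 : (1 - 1 / (p : ℝ)) ^ 2 ≤ 1 - 1 / ((p : ℝ) - 1) := by
      have h8 : (p : ℝ) ≠ 0 := by linarith
      have h9 : (p : ℝ) - 1 ≠ 0 := by linarith
      have h10 : 1 - 1 / ((p : ℝ) - 1) - (1 - 1 / (p : ℝ)) ^ 2 = ((p : ℝ) ^ 2 - 3 * p + 1) / (p ^ 2 * (p - 1)) := by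
        field_simp
        ring
      have h11 : 0 ≤ ((p : ℝ) ^ 2 - 3 * p + 1) / (p ^ 2 * (p - 1)) := by
        refine div_nonneg ?_ ?_
        · nlinarith
        · have : 0 ≤ (p : ℝ) - 1 := by linarith
          positivity
      linarith
    linarith

end Pool.Agent.SQP
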