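import Pool.Agent.Lib.SQP.Trunc

/-!
# All truncations of the singular series agree for almost all `n`
-/

set_option autoImplicit false

open Finset Filter

namespace Pool.Agent.SQP

open Pool.Agent.HLB Pool.Agent.HLT Pool.Agent.HLU

lemma log_two_le' {x : ℕ} (hx : 1 ≤ x) : (Nat.log 2 x : ℝ) ≤ 2 * Real.log x := by
  have h1 : 2 ^ Nat.log 2 x ≤ x := Nat.pow_log_le_self 2 (by omega)
  have h2 : Real.log ((2 : ℝ) ^ Nat.log 2 x) ≤ Real.log x :=
    Real.log_le_log (by positivity) (by exact_mod_cast h1)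
  rw [Real.log_pow] at h2
  have h3 := Real.log_two_gt_d9
  have h4 : (0 : ℝ) ≤ Nat.log 2 x := Nat.cast_nonneg _
  nlinarith

theorem trunc (A B : ℕ) (hB : 4 * A + 12 ≤ B) : ∀ᶠ x : ℕ in atTop, ∃ E ⊆ Icc 1 x,
    (E.card : ℝ) ≤ x / Real.log x ^ A ∧ ∀ n ∈ Icc 1 x, n ∉ E → ∀ z : ℕ, zA B x ≤ z → (z : ℝ) ≤ (x : ℝ) ^ (1 / 3 : ℝ) →
      |SQ z n - SQ (zA B x) n| ≤ 1 / Real.log x ^ A := by
  classical
  have e2 : ∀ᶠ x : ℕ in atTop, 4 * (x : ℝ) ^ (2 / 3 : ℝ) ≤ x / Real.log x ^ B := by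
    have h1 : (fun x : ℝ => Real.log x ^ B) =o[atTop] (fun x : ℝ => x ^ (1 / 3 : ℝ)) := by
      have h := isLittleO_log_rpow_rpow_atTop (B : ℝ) (show (0:ℝ) < 1 / 3 by norm_num)
      simp only [Real.rpow_natCast] at h
      exact h
    have h2 := (h1.comp_tendsto tendsto_natCast_atTop_atTop).bound (show (0:ℝ) < 1 / 4 by norm_num)
    filter_upwards [h2, ev_log 1, eventually_ge_atTop 1] with x hx hL hx1
    have hx0 : (0 : ℝ) < x := by exact_mod_cast hx1
    simp only [Function.comp_def] at hx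
    rw [Real.norm_of_nonneg (by positivity), Real.norm_of_nonneg (by positivity)] at hx
    rw [le_div_iff₀ (by positivity)]
    have h3 : (x : ℝ) ^ (2 / 3 : ℝ) * (x : ℝ) ^ (1 / 3 : ℝ) = x := by
      rw [← Real.rpow_add hx0]
      norm_num
    have h4 : (0 : ℝ) ≤ (x : ℝ) ^ (2 / 3 : ℝ) := by positivity
    nlinarith
  filter_upwards [e2, ev_log 16, DZ_inv_le B, eventually_ge_atTop 1] with x e2 hL hD hx1
  set L := Real.log x with hLdef
  set z1 := zA B x with hz1
  have hL0 : 0 < L := by linarith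
  have hx0 : (0 : ℝ) < x := by exact_mod_cast hx1
  have hz1a : L ^ B / 2 ≤ z1 := by
    have h1 : L ^ B < z1 + 1 := by
      rw [hz1]
      unfold zA
      exact Nat.lt_floor_add_one _
    have h2 : L ≤ L ^ B := le_self_pow₀ (by linarith) (by omega)
    linarith
  have hz1b : 3 ≤ z1 := by
    have h2 : L ≤ L ^ B := le_self_pow₀ (by linarith) (by omega)
    have h3 : (3 : ℝ) ≤ z1 := by linarith
    exact_mod_cast h3
  have hz1p : (0 : ℝ) < z1 := by
    have : (3 : ℝ) ≤ z1 := by exact_mod_cast hz1b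
    linarith
  set U := ⌈L ^ (A + 4)⌉₊ with hU
  have hp1 : (1 : ℝ) ≤ L ^ (A + 4) := one_le_pow₀ (by linarith)
  have hU1 : L ^ (A + 4) ≤ U := Nat.le_ceil _
  have hU2 : (U : ℝ) ≤ 2 * L ^ (A + 4) := by
    have := (Nat.ceil_lt_add_one (by positivity : (0 : ℝ) ≤ L ^ (A + 4))).le
    linarith
  have hU0 : 1 ≤ U := by
    have : (1 : ℝ) ≤ U := hp1.trans hU1
    exact_mod_cast this
  set δ : ℝ := 1 / L ^ (A + 2) with hδ
  have hδ0 : 0 < δ := by positivity
  set cond : ℕ → Prop := fun z => (z : ℝ) ≤ (x : ℝ) ^ (1 / 3 : ℝ) with hcond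
  set bad : ℕ → Finset ℕ := fun z => (Icc 1 x).filter (fun n => δ < |VV z1 z n|) with hbad
  have hbadc : ∀ z : ℕ, cond z → ((bad z).card : ℝ) ≤ x / L ^ (2 * A + 6) := by
    intro z hz
    refine (VV_bad z1 z x (by omega) δ hδ0).trans ?_
    have h1 : (x : ℝ) * (2 / z1) ≤ 4 * (x / L ^ B) := by
      have h2 : 2 / (z1 : ℝ) ≤ 4 / L ^ B := by
        rw [div_le_div_iff₀ hz1p (by positivity)]
        linarith
      calc (x : ℝ) * (2 / z1) ≤ x * (4 / L ^ B) := mul_le_mul_of_nonneg_left h2 hx0.le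
        _ = 4 * (x / L ^ B) := by ring
    have h3 : 4 * (z : ℝ) ^ 2 ≤ x / L ^ B := by
      refine le_trans ?_ e2
      have h4 : (z : ℝ) ^ 2 ≤ ((x : ℝ) ^ (1 / 3 : ℝ)) ^ 2 := pow_le_pow_left₀ (Nat.cast_nonneg _) hz 2
      have h5 : ((x : ℝ) ^ (1 / 3 : ℝ)) ^ 2 = (x : ℝ) ^ (2 / 3 : ℝ) := by
        rw [← Real.rpow_natCast, ← Real.rpow_mul hx0.le]
        norm_num
      rw [h5] at h4
      linarith
    have h6 : ((x : ℝ) * (2 / z1) + 4 * (z : ℝ) ^ 2) / δ ^ 2 ≤ (5 * (x / L ^ B)) / δ ^ 2 :=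
      div_le_div_of_nonneg_right (by linarith) (by positivity)
    refine h6.trans ?_
    have h7 : (5 * (x / L ^ B)) / δ ^ 2 = x * (5 * L ^ (2 * A + 4) / L ^ B) := by
      rw [hδ, div_pow, one_pow, ← pow_mul, show (A + 2) * 2 = 2 * A + 4 by ring]
      field_simp
    rw [h7, div_eq_mul_one_div (x : ℝ)]
    refine mul_le_mul_of_nonneg_left ?_ hx0.le
    rw [div_le_div_iff₀ (by positivity) (by positivity), one_mul]
    calc 5 * L ^ (2 * A + 4) * L ^ (2 * A + 6) ≤ L * L ^ (2 * A + 4) * L ^ (2 * A + 6) := by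
          refine mul_le_mul_of_nonneg_right ?_ (by positivity)
          exact mul_le_mul_of_nonneg_right (by linarith) (by positivity)
      _ = L ^ (4 * A + 11) := by ring
      _ ≤ L ^ B := pow_le_pow_right₀ (by linarith) (by omega)
  set E : Finset ℕ := ((gr U x).filter cond).biUnion bad with hE
  refine ⟨E, ?_, ?_, fun n hn hnE z hz hzx => ?_⟩
  · intro n hn
    obtain ⟨z, _, hz⟩ := Finset.mem_biUnion.mp hn
    exact (Finset.mem_filter.mp hz).1
  · have h2 : (E.card : ℝ) ≤ ∑ z ∈ (gr U x).filter cond, ((bad z).card : ℝ) := by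
      exact_mod_cast Finset.card_biUnion_le
    have h5 : (((gr U x).filter cond).card : ℝ) ≤ L ^ (A + 6) := by
      have h6 : ((gr U x).filter cond).card ≤ (U + 1) * (Nat.log 2 x + 1) :=
        (Finset.card_le_card (Finset.filter_subset _ _)).trans (gr_card U x)
      have h7 : (((gr U x).filter cond).card : ℝ) ≤ (U + 1) * (Nat.log 2 x + 1) := by exact_mod_cast h6
      have h8 := log_two_le' hx1
      have h10 : (U : ℝ) + 1 ≤ 3 * L ^ (A + 4) := by linarith
      have h11 : (Nat.log 2 x : ℝ) + 1 ≤ 3 * L := by linarith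
      calc (((gr U x).filter cond).card : ℝ) ≤ (U + 1) * (Nat.log 2 x + 1) := h7
        _ ≤ (3 * L ^ (A + 4)) * (3 * L) := mul_le_mul h10 h11 (by positivity) (by positivity)
        _ = 9 * L ^ (A + 5) := by ring
        _ ≤ L * L ^ (A + 5) := mul_le_mul_of_nonneg_right (by linarith) (by positivity)
        _ = L ^ (A + 6) := by ring
    calc (E.card : ℝ) ≤ ∑ z ∈ (gr U x).filter cond, ((bad z).card : ℝ) := h2
      _ ≤ ∑ _z ∈ (gr U x).filter cond, x / L ^ (2 * A + 6) :=
          Finset.sum_le_sum fun z hz => hbadc z (Finset.mem_filter.mp hz).2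
      _ = ((gr U x).filter cond).card * (x / L ^ (2 * A + 6)) := by rw [Finset.sum_const, nsmul_eq_mul]
      _ ≤ L ^ (A + 6) * (x / L ^ (2 * A + 6)) := mul_le_mul_of_nonneg_right h5 (by positivity)
      _ = x / L ^ A := by
          rw [show 2 * A + 6 = (A + 6) + A by ring, pow_add L (A + 6) A]
          field_simp
  · have hUz : U ≤ z := by
      have h1 : 2 * L ^ (A + 4) ≤ L ^ B / 2 := by
        have h2 : L * L ^ (A + 4) ≤ L ^ B := by
          rw [← pow_succ']
          exact pow_le_pow_right₀ (by linarith) (by omega)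
        nlinarith
      have h3 : (z1 : ℝ) ≤ z := by exact_mod_cast hz
      have h4 : (U : ℝ) ≤ z := by linarith
      exact_mod_cast h4
    have hzx' : z ≤ x := by
      have h1 : (x : ℝ) ^ (1 / 3 : ℝ) ≤ x := by
        calc (x : ℝ) ^ (1 / 3 : ℝ) ≤ (x : ℝ) ^ (1 : ℝ) :=
              Real.rpow_le_rpow_of_exponent_le (by exact_mod_cast hx1) (by norm_num)
          _ = x := Real.rpow_one _
      have h2 : (z : ℝ) ≤ x := hzx.trans h1
      exact_mod_cast h2
    obtain ⟨z', hz'g, hz'z, hz'U⟩ := gr_near hU0 hUz hzx'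
    have hz'zr : (z' : ℝ) ≤ z := by exact_mod_cast hz'z
    have hz0 : (0 : ℝ) < z := by
      have : 1 ≤ z := by omega
      exact_mod_cast this
    have hUr : (0 : ℝ) < U := by exact_mod_cast hU0
    have hd1 : ((z : ℝ) - z') * U ≤ z := by
      have h1 : (((z - z') * U : ℕ) : ℝ) ≤ z := by exact_mod_cast hz'U
      rwa [Nat.cast_mul, Nat.cast_sub hz'z] at h1
    have hU16 : (16 : ℝ) ≤ U := by
      have : L ≤ L ^ (A + 4) := le_self_pow₀ (by linarith) (by omega)
      linarith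
    have hz'2 : (z : ℝ) / 2 ≤ z' := by nlinarith
    have hz'1 : 1 ≤ z' := by
      have : (0 : ℝ) < z' := by linarith
      exact_mod_cast this
    have hV' : |VV z1 z' n| ≤ δ := by
      by_contra hcon
      rw [not_le] at hcon
      apply hnE
      rw [hE, Finset.mem_biUnion]
      exact ⟨z', Finset.mem_filter.mpr ⟨hz'g, hz'zr.trans hzx⟩, Finset.mem_filter.mpr ⟨hn, hcon⟩⟩
    have hV := VV_diff z1 z' z n hz'1 hz'z
    have hd2 : ((z : ℝ) - z') / z' ≤ 2 / U := by
      have hz'p : (0 : ℝ) < z' := by exact_mod_cast hz'1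
      rw [div_le_div_iff₀ hz'p hUr]
      linarith
    have hd3 : 2 / (U : ℝ) ≤ 2 * δ := by
      rw [hδ, mul_one_div]
      refine div_le_div_of_nonneg_left (by norm_num) (by positivity) (le_trans ?_ hU1)
      exact pow_le_pow_right₀ (by linarith) (by omega)
    have hz14 : 4 / (z1 : ℝ) ≤ δ := by
      rw [hδ, div_le_div_iff₀ hz1p (by positivity), one_mul]
      have h1 : 16 * L ^ (A + 2) ≤ L ^ B := by
        calc 16 * L ^ (A + 2) ≤ L * L ^ (A + 2) := mul_le_mul_of_nonneg_right hL (by positivity)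
          _ = L ^ (A + 3) := by ring
          _ ≤ L ^ B := pow_le_pow_right₀ (by linarith) (by omega)
      have h2 : (0 : ℝ) ≤ L ^ (A + 2) := by positivity
      nlinarith
    have hδ4 : 4 * δ ≤ 1 := by
      rw [hδ, mul_one_div, div_le_one (by positivity)]
      have : L ≤ L ^ (A + 2) := le_self_pow₀ (by linarith) (by omega)
      linarith
    have hR := SQ_ratio z1 z n hz1b hz (4 * δ) (by linarith) hδ4
    refine hR.trans ?_
    have hS := (SQ_le z1 n).trans hD
    calc SQ z1 n * (2 * (4 * δ)) ≤ L * (2 * (4 * δ)) := mul_le_mul_of_nonneg_right hS (by positivity)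
      _ = (1 / L ^ A) * (8 / L) := by
          rw [hδ, pow_add]
          field_simp
          ring
      _ ≤ 1 / L ^ A := by
          refine mul_le_of_le_one_right (by positivity) ?_
          rw [div_le_one hL0]
          linarith

end Pool.Agent.SQP
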